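import Pool.Agent.Run7.h137.RGRace

set_option autoImplicit false

/-!
The attack phase of the drawing strategy.
-/

namespace Run7.h137.RG

variable {d : ℕ} {D c : Core} {F S K R O : Finset (Finset ℕ)} {q Z : Finset ℕ}

/-- The core `c` shares a cell with the boxes of `D`. -/
def Ov (D c : Core) : Prop := ∃ w ∈ D.W, ∃ w' ∈ c.W, D.U.erase w = c.U.erase w'

lemma card_U_erase (hd : 3 ≤ d) (hc : c.Valid d) {w : ℕ} (hw : w ∈ c.W) :
    (c.U.erase w).card = 10 * d - 3 := by
  rw [Finset.card_erase_of_mem (W_sub_U hw), hc.cardU hd]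
  omega

lemma overlay_of_cell (hd : 3 ≤ d) (hD : D.Valid d) (hc : c.Valid d) (hZD : ZOk d D Z)
    (h1 : Disjoint Z c.X₁) (h2 : Disjoint Z c.X₂) {e : Finset ℕ} (he : e ∈ D.box Z)
    {Z' : Finset ℕ} (hZ' : ZOk d c Z') (he' : e ∈ c.box Z') : Ov D c ∧ Z' = Z := by
  obtain ⟨w, hw, rfl⟩ := mem_box.1 he
  obtain ⟨w', hw', hEq⟩ := mem_box.1 he'
  have hnotU : ∀ x ∈ Z, x ∉ c.U := by
    intro x hx hxU
    rcases hc.U_mem hxU with h3 | h3
    · exact Finset.disjoint_left.1 h1 hx h3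
    · exact Finset.disjoint_left.1 h2 hx h3
  have hZZ : Z = Z' := by
    apply Finset.eq_of_subset_of_card_le
    · intro x hx
      have h3 : x ∈ D.cell Z w := mem_cell.2 (Or.inl hx)
      rw [← hEq] at h3
      rcases mem_cell.1 h3 with h4 | h4
      · exact h4
      · exact absurd h4.2 (hnotU x hx)
    · rw [hZD.card, hZ'.card]
  refine ⟨⟨w, hw, w', hw', ?_⟩, hZZ.symm⟩
  symm
  apply Finset.eq_of_subset_of_card_le
  · intro x hx
    have h3 : x ∈ c.cell Z' w' := Finset.mem_union_right _ hx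
    rw [hEq] at h3
    rcases Finset.mem_union.1 h3 with h4 | h4
    · exact absurd (Finset.mem_of_mem_erase hx) (hnotU x h4)
    · exact h4
  · rw [card_U_erase hd hD hw, card_U_erase hd hc hw']

lemma sub_of_mem_box {e : Finset ℕ} (he : e ∈ c.box Z) : Z ⊆ e := by
  obtain ⟨w, _, rfl⟩ := mem_box.1 he
  exact Finset.subset_union_left

lemma Z_nonempty (hd : 3 ≤ d) (hZ : ZOk d c Z) : Z.Nonempty := by
  rw [← Finset.card_pos, hZ.card]; omega

lemma not_mem_box_of_disjoint (hd : 3 ≤ d) (hZ : ZOk d c Z) {e : Finset ℕ} (he : Disjoint Z e) :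
    e ∉ D.box Z := by
  intro h
  obtain ⟨z, hz⟩ := Z_nonempty hd hZ
  exact Finset.disjoint_left.1 he hz (sub_of_mem_box h hz)

lemma inter_box_empty (hd : 3 ≤ d) (hZ : ZOk d c Z) (h : ∀ g ∈ F, Disjoint Z g) :
    F ∩ D.box Z = ∅ := by
  rw [← Finset.disjoint_iff_inter_eq_empty, Finset.disjoint_left]
  intro e he
  exact not_mem_box_of_disjoint hd hZ (h e he)

/-- The columns of a core are covered by its edges. -/
lemma X₁_cover (hd : 3 ≤ d) (hc : c.Valid d) {x : ℕ} (hx : x ∈ c.X₁) : ∃ e ∈ c.core, x ∈ e := by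
  obtain ⟨a, ha, hax, _⟩ := exists_ne_ne (s := c.A₁) (by rw [hc.cardA₁]; omega) x x
  exact ⟨c.X₁.erase a, mem_core.2 (Or.inl ⟨a, ha, rfl⟩), Finset.mem_erase.2 ⟨Ne.symm hax, hx⟩⟩

lemma X₂_cover (hd : 3 ≤ d) (hc : c.Valid d) {x : ℕ} (hx : x ∈ c.X₂) : ∃ e ∈ c.core, x ∈ e := by
  have := X₁_cover hd (swap_valid hc) (x := x) hx
  rwa [swap_core] at this

lemma disj_X₁ (hd : 3 ≤ d) (hc : c.Valid d) (hcK : c.core ⊆ K) (h : ∀ g ∈ K, Disjoint Z g) :
    Disjoint Z c.X₁ := by
  rw [Finset.disjoint_left]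
  intro x hx hx1
  obtain ⟨e, he, hxe⟩ := X₁_cover hd hc hx1
  exact Finset.disjoint_left.1 (h e (hcK he)) hx hxe

lemma disj_X₂ (hd : 3 ≤ d) (hc : c.Valid d) (hcK : c.core ⊆ K) (h : ∀ g ∈ K, Disjoint Z g) :
    Disjoint Z c.X₂ := by
  rw [Finset.disjoint_left]
  intro x hx hx1
  obtain ⟨e, he, hxe⟩ := X₂_cover hd hc hx1
  exact Finset.disjoint_left.1 (h e (hcK he)) hx hxe

lemma W_nonempty (hd : 3 ≤ d) (hc : c.Valid d) : c.W.Nonempty := by
  have h3 : c.W.card = 2 * d - 2 := hc.cardW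
  rw [← Finset.card_pos, h3]; omega

/-! ### Mode N -/

/-- Drawing player to move, his core is complete, the opponent has no useful core. -/
structure ModeN (d : ℕ) (D : Core) (F S K R : Finset (Finset ℕ)) : Prop where
  hD : D.Valid d
  hDS : D.core ⊆ S
  hFS : Disjoint F S
  hF : F ⊆ K ∪ R
  hK : ∀ P : Cp, P.Valid d → Disjoint P.edges S → (P.edges ∩ K).card ≤ 8 * d
  hR : ∀ ρ ∈ R, ∃ z ∈ ρ, z ∉ D.X₁ ∧ z ∉ D.X₂ ∧ ∀ g ∈ K ∪ R, g ≠ ρ → z ∉ g
  hRc : ∀ ρ ∈ R, ∀ c' : Core, c'.Valid d → c'.core ⊆ K → ∀ Z, ZOk d c' Z → ρ ∉ c'.box Z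
  hov : ∀ c' : Core, c'.Valid d → c'.core ⊆ K → ¬ Ov D c'

/-- Opponent to move, attack pending at `Z`. -/
structure AtkN (d : ℕ) (D : Core) (F S K R : Finset (Finset ℕ)) (Z : Finset ℕ) : Prop where
  mode : ModeN d D F S K R
  hZ : ZOk d D Z
  hZf : ∀ g ∈ K ∪ R, Disjoint Z g
  hS1 : (S ∩ D.box Z).card = 1

lemma disj_insert_right {e' : Finset ℕ} (hFS : Disjoint F S) (he'F : e' ∉ F) :
    Disjoint F (insert e' S) := by
  rw [Finset.disjoint_left]
  intro x hx hx'
  rcases Finset.mem_insert.1 hx' with rfl | h2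
  · exact he'F hx
  · exact Finset.disjoint_left.1 hFS hx h2

lemma attack_N (hd : 3 ≤ d) (h : ModeN d D F S K R) :
    ∃ e' : Finset ℕ, e'.card = 22 * d - 3 ∧ e' ∉ F ∧ e' ∉ S ∧
      ∃ Z, AtkN d D F (insert e' S) K R Z := by
  obtain ⟨Z, hZc, hZV⟩ := fresh_set ((K ∪ R ∪ S).biUnion id ∪ (D.X₁ ∪ D.X₂)) (12 * d)
  rw [Finset.disjoint_union_right, Finset.disjoint_union_right] at hZV
  obtain ⟨hZV1, hZ1, hZ2⟩ := hZV
  have hZ : ZOk d D Z := ⟨hZc, hZ1, hZ2⟩
  have hfr : ∀ g ∈ K ∪ R ∪ S, Disjoint Z g := fun g hg =>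
    Finset.disjoint_of_subset_right (Finset.subset_biUnion_of_mem id hg) hZV1
  obtain ⟨w, hw⟩ := W_nonempty hd h.hD
  have hbox : D.cell Z w ∈ D.box Z := mem_box.2 ⟨w, hw, rfl⟩
  have heF : D.cell Z w ∉ F := fun he =>
    not_mem_box_of_disjoint hd hZ (hfr _ (Finset.mem_union_left _ (h.hF he))) hbox
  have heS : D.cell Z w ∉ S := fun he =>
    not_mem_box_of_disjoint hd hZ (hfr _ (Finset.mem_union_right _ he)) hbox
  refine ⟨D.cell Z w, cell_card hd h.hD hZ hw, heF, heS, Z,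
    ⟨⟨h.hD, h.hDS.trans (Finset.subset_insert _ _), disj_insert_right h.hFS heF, h.hF, ?_,
      h.hR, h.hRc, h.hov⟩, hZ, ?_, ?_⟩⟩
  · intro P hP hPS
    exact h.hK P hP (Finset.disjoint_of_subset_right (Finset.subset_insert _ _) hPS)
  · intro g hg
    exact hfr g (Finset.mem_union_left _ hg)
  · rw [insert_inter_card_mem hbox heS,
      inter_box_empty hd hZ (fun g hg => hfr g (Finset.mem_union_right _ hg))]
    simp

theorem stepN (hd : 3 ≤ d) (h : AtkN d D F S K R Z) (e : Finset ℕ) (heF : e ∉ F) (heS : e ∉ S) :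
    ¬ HasCopy d (insert e F) ∧ ∃ e' : Finset ℕ, e'.card = 22 * d - 3 ∧ e' ∉ insert e F ∧ e' ∉ S ∧
      (HasCopy d (insert e' S) ∨ RaceInv d (insert e F) (insert e' S) ∨
        ∃ D K R Z, AtkN d D (insert e F) (insert e' S) K R Z) := by
  have hm := h.mode
  have hFS' := disj_insert_left hm.hFS heS
  have hSP : ∀ P : Cp, P.Valid d → Disjoint P.edges S →
      (P.edges ∩ (K ∪ R)).card ≤ 8 * d ∨ P.box ∈ (∅ : Finset (Finset (Finset ℕ))) := by
    intro P hP hPS
    left
    refine static_N hd ?_ hm.hRc hP (hm.hK P hP hPS)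
    intro ρ hρ
    obtain ⟨z, hz, _, _, hz3⟩ := hm.hR ρ hρ
    exact ⟨z, hz, hz3⟩
  have hF' : insert e F ⊆ (K ∪ R) ∪ {e} := by
    intro x hx
    rcases Finset.mem_insert.1 hx with rfl | h1
    · exact Finset.mem_union_right _ (Finset.mem_singleton_self _)
    · exact Finset.mem_union_left _ (hm.hF h1)
  refine ⟨no_copy (G := K ∪ R) (E := {e}) (B := ∅) hd hFS' hF' (by simp; omega) hSP (by simp), ?_⟩
  by_cases hbox : e ∈ D.box Z
  · -- the reply: a new attack
    have hnew : ModeN d D (insert e F) S K (insert e R) := by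
      refine ⟨hm.hD, hm.hDS, hFS', ?_, hm.hK, ?_, ?_, hm.hov⟩
      · intro x hx
        rcases Finset.mem_insert.1 hx with rfl | h1
        · exact Finset.mem_union_right _ (Finset.mem_insert_self _ _)
        · rcases Finset.mem_union.1 (hm.hF h1) with h2 | h2
          · exact Finset.mem_union_left _ h2
          · exact Finset.mem_union_right _ (Finset.mem_insert_of_mem h2)
      · intro ρ hρ
        rcases Finset.mem_insert.1 hρ with rfl | h1
        · obtain ⟨z, hz⟩ := Z_nonempty hd h.hZ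
          refine ⟨z, sub_of_mem_box hbox hz, Finset.disjoint_left.1 h.hZ.disj₁ hz,
            Finset.disjoint_left.1 h.hZ.disj₂ hz, ?_⟩
          intro g hg hne
          have hg' : g ∈ K ∪ R := by
            rcases Finset.mem_union.1 hg with h2 | h2
            · exact Finset.mem_union_left _ h2
            · rcases Finset.mem_insert.1 h2 with h3 | h3
              · exact absurd h3 hne
              · exact Finset.mem_union_right _ h3
          exact Finset.disjoint_left.1 (h.hZf g hg') hz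
        · obtain ⟨z, hz, hz1, hz2, hz3⟩ := hm.hR ρ h1
          refine ⟨z, hz, hz1, hz2, ?_⟩
          intro g hg hne
          rcases Finset.mem_union.1 hg with h2 | h2
          · exact hz3 g (Finset.mem_union_left _ h2) hne
          · rcases Finset.mem_insert.1 h2 with h3 | h3
            · subst h3
              obtain ⟨w, hw, rfl⟩ := mem_box.1 hbox
              intro hzc
              rcases mem_cell.1 hzc with h4 | h4
              · exact Finset.disjoint_left.1 (h.hZf ρ (Finset.mem_union_right _ h1)) h4 hz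
              · rcases hm.hD.U_mem h4.2 with h5 | h5
                · exact hz1 h5
                · exact hz2 h5
            · exact hz3 g (Finset.mem_union_right _ h3) hne
      · intro ρ hρ c' hc' hcK Z' hZ' hρb
        rcases Finset.mem_insert.1 hρ with rfl | h1
        · have h2 := overlay_of_cell hd hm.hD hc' h.hZ
            (disj_X₁ hd hc' hcK (fun g hg => h.hZf g (Finset.mem_union_left _ hg)))
            (disj_X₂ hd hc' hcK (fun g hg => h.hZf g (Finset.mem_union_left _ hg))) hbox hZ' hρb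
          exact hm.hov c' hc' hcK h2.1
        · exact hm.hRc ρ h1 c' hc' hcK Z' hZ' hρb
    obtain ⟨e', h1, h2, h3, Z', h4⟩ := attack_N hd hnew
    exact ⟨e', h1, h2, h3, Or.inr (Or.inr ⟨D, K, insert e R, Z', h4⟩)⟩
  · -- the race starts
    have hF0 : F ∩ D.box Z = ∅ := inter_box_empty hd h.hZ (fun g hg => h.hZf g (hm.hF hg))
    have hS1 := h.hS1
    obtain ⟨e', h1, h2, h3, h4⟩ := race_next (G := K ∪ R) (E := {e}) (B := ∅) hd hm.hD h.hZ hm.hDS
      hFS' hF' (by rw [hS1]; simp) (by omega) (by omega)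
      (by rw [insert_inter_notMem hbox, hF0, hS1]; simp) hSP (by simp) (by simp)
    exact ⟨e', h1, h2, h3, h4.imp_right Or.inl⟩

/-! ### Mode S -/

/-- Drawing player to move, his core is complete, the opponent has the core `c`. -/
structure ModeS (d : ℕ) (D c : Core) (F S : Finset (Finset ℕ)) (q : Finset ℕ)
    (O R : Finset (Finset ℕ)) : Prop where
  hD : D.Valid d
  hDS : D.core ⊆ S
  hFS : Disjoint F S
  hc : c.Valid d
  hF : F ⊆ GS c q O R
  hO : ∀ Z ∈ O, ZOk d c Z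
  hq : ∀ Z, ZOk d c Z → q ∈ c.box Z → Z ∈ O
  hR : ∀ ρ ∈ R, ∃ z ∈ ρ, (z ∉ D.X₁ ∧ z ∉ D.X₂) ∧ z ∉ c.X₁ ∧ z ∉ c.X₂ ∧
    ∀ g ∈ GS c q O R, g ≠ ρ → z ∉ g
  hRc : ∀ ρ ∈ R, ∀ c' : Core, c'.Valid d → c'.X₁ = c.X₁ → c'.X₂ = c.X₂ →
    c'.core ⊆ insert q c.core → ∀ Z, ZOk d c' Z → ρ ∉ c'.box Z
  hov : ∀ c' : Core, c'.Valid d → c'.X₁ = c.X₁ → c'.X₂ = c.X₂ →
    c'.core ⊆ insert q c.core → c' ≠ c → ¬ Ov D c'
  hbal : ∀ Z ∈ O, (F ∩ c.box Z).card ≤ (S ∩ c.box Z).card

/-- Opponent to move, attack pending at `Z`. -/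
structure AtkS (d : ℕ) (D c : Core) (F S : Finset (Finset ℕ)) (q : Finset ℕ)
    (O R : Finset (Finset ℕ)) (Z : Finset ℕ) : Prop where
  mode : ModeS d D c F S q O R
  hZ : ZOk d D Z
  hZc : ZOk d c Z
  hZO : Z ∉ O
  hZf : ∀ g ∈ GS c q O R, Disjoint Z g
  hS1 : (S ∩ D.box Z).card = 1
  hsh : Ov D c → 1 ≤ (S ∩ c.box Z).card

lemma attack_S (hd : 3 ≤ d) (h : ModeS d D c F S q O R) :
    ∃ e' : Finset ℕ, e'.card = 22 * d - 3 ∧ e' ∉ F ∧ e' ∉ S ∧
      ∃ Z, AtkS d D c F (insert e' S) q O R Z := by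
  obtain ⟨Z, hZc, hZV⟩ := fresh_set
    ((GS c q O R ∪ S).biUnion id ∪ (O.biUnion id ∪ ((D.X₁ ∪ D.X₂) ∪ (c.X₁ ∪ c.X₂)))) (12 * d)
  rw [Finset.disjoint_union_right, Finset.disjoint_union_right, Finset.disjoint_union_right,
    Finset.disjoint_union_right, Finset.disjoint_union_right] at hZV
  obtain ⟨hZV1, hZV2, ⟨hZ1, hZ2⟩, hZ3, hZ4⟩ := hZV
  have hZ : ZOk d D Z := ⟨hZc, hZ1, hZ2⟩
  have hZc' : ZOk d c Z := ⟨hZc, hZ3, hZ4⟩
  have hfr : ∀ g ∈ GS c q O R ∪ S, Disjoint Z g := fun g hg =>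
    Finset.disjoint_of_subset_right (Finset.subset_biUnion_of_mem id hg) hZV1
  have hZO : Z ∉ O := by
    intro hZO
    obtain ⟨z, hz⟩ := Z_nonempty hd hZ
    exact Finset.disjoint_left.1 hZV2 hz (Finset.mem_biUnion.2 ⟨Z, hZO, hz⟩)
  -- the shared cell first
  obtain ⟨w, hw, hsh⟩ : ∃ w ∈ D.W, Ov D c → ∃ w' ∈ c.W, D.U.erase w = c.U.erase w' := by
    by_cases ho : Ov D c
    · obtain ⟨w, hw, w', hw', hEq⟩ := ho
      exact ⟨w, hw, fun _ => ⟨w', hw', hEq⟩⟩
    · obtain ⟨w, hw⟩ := W_nonempty hd h.hD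
      exact ⟨w, hw, fun h' => absurd h' ho⟩
  have hbox : D.cell Z w ∈ D.box Z := mem_box.2 ⟨w, hw, rfl⟩
  have heF : D.cell Z w ∉ F := fun he =>
    not_mem_box_of_disjoint hd hZ (hfr _ (Finset.mem_union_left _ (h.hF he))) hbox
  have heS : D.cell Z w ∉ S := fun he =>
    not_mem_box_of_disjoint hd hZ (hfr _ (Finset.mem_union_right _ he)) hbox
  refine ⟨D.cell Z w, cell_card hd h.hD hZ hw, heF, heS, Z,
    ⟨⟨h.hD, h.hDS.trans (Finset.subset_insert _ _), disj_insert_right h.hFS heF, h.hc, h.hF,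
      h.hO, h.hq, h.hR, h.hRc, h.hov, ?_⟩, hZ, hZc', hZO, ?_, ?_, ?_⟩⟩
  · intro Z' hZ'
    exact (h.hbal Z' hZ').trans (Finset.card_le_card
      (Finset.inter_subset_inter_right (Finset.subset_insert _ _)))
  · intro g hg
    exact hfr g (Finset.mem_union_left _ hg)
  · rw [insert_inter_card_mem hbox heS,
      inter_box_empty hd hZ (fun g hg => hfr g (Finset.mem_union_right _ hg))]
    simp
  · intro ho
    obtain ⟨w', hw', hEq⟩ := hsh ho
    apply Finset.card_pos.2
    refine ⟨D.cell Z w, Finset.mem_inter.2 ⟨Finset.mem_insert_self _ _, mem_box.2 ⟨w', hw', ?_⟩⟩⟩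
    rw [Core.cell, Core.cell, hEq]

lemma ModeS.SP (hd : 3 ≤ d) (h : ModeS d D c F S q O R) : ∀ P : Cp, P.Valid d →
    Disjoint P.edges S → (P.edges ∩ GS c q O R).card ≤ 8 * d ∨ P.box ∈ O.image c.box := by
  intro P hP _
  by_cases h8 : (P.edges ∩ GS c q O R).card ≤ 8 * d
  · exact Or.inl h8
  · right
    have := static_S hd h.hc h.hO (R := R) (q := q) (fun ρ hρ => by
      obtain ⟨z, hz, _, hz2, hz3, hz4⟩ := h.hR ρ hρ
      exact ⟨z, hz, hz2, hz3, hz4⟩) h.hq h.hRc hP (by omega)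
    exact Finset.mem_image.2 ⟨P.Z, this.1, this.2.symm⟩

lemma box_sub_GS {Z' : Finset ℕ} (hZ' : Z' ∈ O) : c.box Z' ⊆ GS c q O R := fun _ he =>
  mem_GS.2 (Or.inr (Or.inr (Or.inl ⟨Z', hZ', he⟩)))

theorem stepS (hd : 3 ≤ d) (h : AtkS d D c F S q O R Z) (e : Finset ℕ) (heF : e ∉ F)
    (heS : e ∉ S) :
    ¬ HasCopy d (insert e F) ∧ ∃ e' : Finset ℕ, e'.card = 22 * d - 3 ∧ e' ∉ insert e F ∧ e' ∉ S ∧
      (HasCopy d (insert e' S) ∨ RaceInv d (insert e F) (insert e' S) ∨
        ∃ D c q O R Z, AtkS d D c (insert e F) (insert e' S) q O R Z) := by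
  have hm := h.mode
  have hFS' := disj_insert_left hm.hFS heS
  have hSP := hm.SP hd
  have hF' : insert e F ⊆ GS c q O R ∪ {e} := by
    intro x hx
    rcases Finset.mem_insert.1 hx with rfl | h1
    · exact Finset.mem_union_right _ (Finset.mem_singleton_self _)
    · exact Finset.mem_union_left _ (hm.hF h1)
  have hF0 : F ∩ D.box Z = ∅ := inter_box_empty hd h.hZ (fun g hg => h.hZf g (hm.hF hg))
  have hF0c : F ∩ c.box Z = ∅ := inter_box_empty hd h.hZ (fun g hg => h.hZf g (hm.hF hg))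
  refine ⟨no_copy (G := GS c q O R) (E := {e}) (B := O.image c.box) hd hFS' hF'
    (by simp; omega) hSP ?_, ?_⟩
  · intro β hβ
    obtain ⟨Z', hZ', rfl⟩ := Finset.mem_image.1 hβ
    refine ⟨box_card hd hm.hc (hm.hO Z' hZ'), (insert_inter_card_le _ _ _).trans ?_⟩
    have := hm.hbal Z' hZ'
    omega
  by_cases hcase : ∃ Z' ∈ O, e ∈ c.box Z' ∧ (S ∩ c.box Z').card < (insert e F ∩ c.box Z').card
  · -- reply in an old box
    obtain ⟨Z', hZ', heb, hlt⟩ := hcase
    have h3 := insert_inter_card_mem heb heF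
    have h4 := hm.hbal Z' hZ'
    obtain ⟨e', he'β, he'F, he'S⟩ := reply_box hFS' (box_card hd hm.hc (hm.hO Z' hZ'))
        (show (insert e F ∩ c.box Z').card = (S ∩ c.box Z').card + 1 by omega)
    have he'G : e' ∈ GS c q O R := box_sub_GS hZ' he'β
    have he'D : e' ∉ D.box Z := not_mem_box_of_disjoint hd h.hZ (h.hZf e' he'G)
    refine ⟨e', box_elem_card hd hm.hc (hm.hO Z' hZ') he'β, he'F, he'S, Or.inr (Or.inr
      ⟨D, c, q, O, R, Z, ⟨⟨hm.hD, hm.hDS.trans (Finset.subset_insert _ _),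
        disj_insert hm.hFS heS he'F, hm.hc, ?_, hm.hO, hm.hq, hm.hR, hm.hRc, hm.hov, ?_⟩,
        h.hZ, h.hZc, h.hZO, h.hZf, ?_, ?_⟩⟩)⟩
    · intro x hx
      rcases Finset.mem_insert.1 hx with rfl | h1
      · exact box_sub_GS hZ' heb
      · exact hm.hF h1
    · intro Z₃ hZ₃
      by_cases hZZ : Z₃ = Z'
      · subst hZZ
        rw [insert_inter_card_mem he'β he'S, h3]
        omega
      · have : e ∉ c.box Z₃ := fun h5 =>
          hZZ (box_disjoint hm.hc (hm.hO _ hZ₃) (hm.hO _ hZ') h5 heb)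
        rw [insert_inter_notMem this]
        exact (hm.hbal Z₃ hZ₃).trans (Finset.card_le_card
          (Finset.inter_subset_inter_right (Finset.subset_insert _ _)))
    · rw [insert_inter_notMem he'D]; exact h.hS1
    · intro ho
      exact (h.hsh ho).trans (Finset.card_le_card
          (Finset.inter_subset_inter_right (Finset.subset_insert _ _)))
  push Not at hcase
  have hbal' : ∀ Z' ∈ O, (insert e F ∩ c.box Z').card ≤ (S ∩ c.box Z').card := by
    intro Z' hZ'
    by_cases heb : e ∈ c.box Z'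
    · exact hcase Z' hZ' heb
    · rw [insert_inter_notMem heb]; exact hm.hbal Z' hZ'
  by_cases hbox : e ∈ D.box Z
  · -- the reply: a new attack
    obtain ⟨w, hw, hwe⟩ := mem_box.1 hbox
    have hnotin : ∀ x, x ∉ Z → x ∉ D.X₁ → x ∉ D.X₂ → x ∉ e := by
      intro x hx hx1 hx2 hxe
      rw [← hwe] at hxe
      rcases mem_cell.1 hxe with h4 | h4
      · exact hx h4
      · rcases hm.hD.U_mem h4.2 with h5 | h5
        · exact hx1 h5
        · exact hx2 h5
    by_cases hcb : ∃ Z', ZOk d c Z' ∧ e ∈ c.box Z'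
    · obtain ⟨Z', hZ', heb⟩ := hcb
      obtain ⟨hov, rfl⟩ := overlay_of_cell hd hm.hD hm.hc h.hZ h.hZc.disj₁ h.hZc.disj₂ hbox hZ' heb
      have hnew : ModeS d D c (insert e F) S q (insert Z' O) R := by
        refine ⟨hm.hD, hm.hDS, hFS', hm.hc, ?_, ?_, ?_, ?_, hm.hRc, hm.hov, ?_⟩
        · intro x hx
          rcases Finset.mem_insert.1 hx with rfl | h1
          · exact box_sub_GS (Finset.mem_insert_self _ _) heb
          · rcases mem_GS.1 (hm.hF h1) with h2 | h2 | ⟨Z₃, h2, h3⟩ | h2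
            · exact mem_GS.2 (Or.inl h2)
            · exact mem_GS.2 (Or.inr (Or.inl h2))
            · exact mem_GS.2 (Or.inr (Or.inr (Or.inl ⟨Z₃, Finset.mem_insert_of_mem h2, h3⟩)))
            · exact mem_GS.2 (Or.inr (Or.inr (Or.inr h2)))
        · intro Z₃ hZ₃
          rcases Finset.mem_insert.1 hZ₃ with rfl | h1
          · exact hZ'
          · exact hm.hO Z₃ h1
        · intro Z₃ hZ₃ hqb
          exact Finset.mem_insert_of_mem (hm.hq Z₃ hZ₃ hqb)
        · intro ρ hρ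
          obtain ⟨z, hz, hz0, hz1, hz2, hz3⟩ := hm.hR ρ hρ
          refine ⟨z, hz, hz0, hz1, hz2, ?_⟩
          intro g hg hne
          rcases mem_GS.1 hg with h2 | h2 | ⟨Z₃, h2, h3⟩ | h2
          · exact hz3 g (mem_GS.2 (Or.inl h2)) hne
          · exact hz3 g (mem_GS.2 (Or.inr (Or.inl h2))) hne
          · rcases Finset.mem_insert.1 h2 with h4 | h4
            · subst h4
              obtain ⟨w₃, _, rfl⟩ := mem_box.1 h3
              intro hzc
              rcases mem_cell.1 hzc with h4 | h4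
              · exact Finset.disjoint_left.1
                  (h.hZf ρ (mem_GS.2 (Or.inr (Or.inr (Or.inr hρ))))) h4 hz
              · rcases hm.hc.U_mem h4.2 with h5 | h5
                · exact hz1 h5
                · exact hz2 h5
            · exact hz3 g (mem_GS.2 (Or.inr (Or.inr (Or.inl ⟨Z₃, h4, h3⟩)))) hne
          · exact hz3 g (mem_GS.2 (Or.inr (Or.inr (Or.inr h2)))) hne
        · intro Z₃ hZ₃
          rcases Finset.mem_insert.1 hZ₃ with rfl | h1
          · rw [insert_inter_card_mem heb heF, hF0c]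
            simpa using h.hsh hov
          · exact hbal' Z₃ h1
      obtain ⟨e', h1, h2, h3, Z₃, h4⟩ := attack_S hd hnew
      exact ⟨e', h1, h2, h3, Or.inr (Or.inr ⟨D, c, q, _, R, Z₃, h4⟩)⟩
    · push Not at hcb
      have hnew : ModeS d D c (insert e F) S q O (insert e R) := by
        refine ⟨hm.hD, hm.hDS, hFS', hm.hc, ?_, hm.hO, hm.hq, ?_, ?_, hm.hov, hbal'⟩
        · intro x hx
          rcases Finset.mem_insert.1 hx with rfl | h1
          · exact mem_GS.2 (Or.inr (Or.inr (Or.inr (Finset.mem_insert_self _ _))))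
          · rcases mem_GS.1 (hm.hF h1) with h2 | h2 | h2 | h2
            · exact mem_GS.2 (Or.inl h2)
            · exact mem_GS.2 (Or.inr (Or.inl h2))
            · exact mem_GS.2 (Or.inr (Or.inr (Or.inl h2)))
            · exact mem_GS.2 (Or.inr (Or.inr (Or.inr (Finset.mem_insert_of_mem h2))))
        · intro ρ hρ
          rcases Finset.mem_insert.1 hρ with rfl | h1
          · obtain ⟨z, hz⟩ := Z_nonempty hd h.hZ
            refine ⟨z, sub_of_mem_box hbox hz, ⟨Finset.disjoint_left.1 h.hZ.disj₁ hz,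
              Finset.disjoint_left.1 h.hZ.disj₂ hz⟩, Finset.disjoint_left.1 h.hZc.disj₁ hz,
              Finset.disjoint_left.1 h.hZc.disj₂ hz, ?_⟩
            intro g hg hne
            have hg' : g ∈ GS c q O R := by
              rcases mem_GS.1 hg with h2 | h2 | h2 | h2
              · exact mem_GS.2 (Or.inl h2)
              · exact mem_GS.2 (Or.inr (Or.inl h2))
              · exact mem_GS.2 (Or.inr (Or.inr (Or.inl h2)))
              · rcases Finset.mem_insert.1 h2 with h3 | h3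
                · exact absurd h3 hne
                · exact mem_GS.2 (Or.inr (Or.inr (Or.inr h3)))
            exact Finset.disjoint_left.1 (h.hZf g hg') hz
          · obtain ⟨z, hz, hz0, hz1, hz2, hz3⟩ := hm.hR ρ h1
            refine ⟨z, hz, hz0, hz1, hz2, ?_⟩
            intro g hg hne
            rcases mem_GS.1 hg with h2 | h2 | h2 | h2
            · exact hz3 g (mem_GS.2 (Or.inl h2)) hne
            · exact hz3 g (mem_GS.2 (Or.inr (Or.inl h2))) hne
            · exact hz3 g (mem_GS.2 (Or.inr (Or.inr (Or.inl h2)))) hne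
            · rcases Finset.mem_insert.1 h2 with h3 | h3
              · rw [h3]
                refine hnotin z ?_ hz0.1 hz0.2
                intro hzZ
                exact Finset.disjoint_left.1
                  (h.hZf ρ (mem_GS.2 (Or.inr (Or.inr (Or.inr h1))))) hzZ hz
              · exact hz3 g (mem_GS.2 (Or.inr (Or.inr (Or.inr h3)))) hne
        · intro ρ hρ c' hc' hX1 hX2 hsub Z₃ hZ₃ hρb
          rcases Finset.mem_insert.1 hρ with rfl | h1
          · by_cases hcc : c' = c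
            · subst hcc
              exact hcb Z₃ hZ₃ hρb
            · have h2 := overlay_of_cell hd hm.hD hc' h.hZ
                (by rw [hX1]; exact h.hZc.disj₁) (by rw [hX2]; exact h.hZc.disj₂) hbox hZ₃ hρb
              exact hm.hov c' hc' hX1 hX2 hsub hcc h2.1
          · exact hm.hRc ρ h1 c' hc' hX1 hX2 hsub Z₃ hZ₃ hρb
      obtain ⟨e', h1, h2, h3, Z₃, h4⟩ := attack_S hd hnew
      exact ⟨e', h1, h2, h3, Or.inr (Or.inr ⟨D, c, q, O, _, Z₃, h4⟩)⟩
  · -- the race starts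
    have hS1 := h.hS1
    have hB1 : ∀ β ∈ O.image c.box, β.card = 2 * d - 2 ∧ β ⊆ GS c q O R ∧
        (∀ e ∈ β, e.card = 22 * d - 3) ∧
        (insert e F ∩ β).card ≤ (S ∩ β).card ∧ Disjoint β (D.box Z) := by
      intro β hβ
      obtain ⟨Z', hZ', rfl⟩ := Finset.mem_image.1 hβ
      refine ⟨box_card hd hm.hc (hm.hO Z' hZ'), box_sub_GS hZ',
        fun x hx => box_elem_card hd hm.hc (hm.hO Z' hZ') hx, hbal' Z' hZ', ?_⟩
      rw [Finset.disjoint_left]
      intro x hx
      exact not_mem_box_of_disjoint hd h.hZ (h.hZf x (box_sub_GS hZ' hx))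
    have hB2 : ∀ β ∈ O.image c.box, ∀ β' ∈ O.image c.box, β ≠ β' → Disjoint β β' := by
      intro β hβ β' hβ' hne
      obtain ⟨Z', hZ', rfl⟩ := Finset.mem_image.1 hβ
      obtain ⟨Z₃, hZ₃, rfl⟩ := Finset.mem_image.1 hβ'
      rw [Finset.disjoint_left]
      intro x hx hx'
      apply hne
      rw [box_disjoint hm.hc (hm.hO _ hZ') (hm.hO _ hZ₃) hx hx']
    obtain ⟨e', h1, h2, h3, h4⟩ := race_next (G := GS c q O R) (E := {e}) (B := O.image c.box) hd
      hm.hD h.hZ hm.hDS hFS' hF' (by rw [hS1]; simp) (by omega) (by omega)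
      (by rw [insert_inter_notMem hbox, hF0, hS1]; simp) hSP hB1 hB2
    exact ⟨e', h1, h2, h3, h4.imp_right Or.inl⟩

end Run7.h137.RG
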