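import Mathlib

set_option autoImplicit false

/-!
The target hypergraph of the drawn strong Ramsey game and the elementary facts on its copies.

Parameters for `d ≥ 3`: uniformity `22 d - 3`; two columns `X₁`, `X₂` of `22 d - 2` vertices with
`2 d - 2` common vertices; `4 d` marks in each column; the edges of a copy are the sets
`X₁ \ a`, `X₂ \ a` (`a` a mark) and `d` of the `2 d - 2` sets `Z ∪ A₁ ∪ A₂ ∪ (W \ w)`.
-/

namespace Run7.h137.RG

/-- Data of a core: two columns and the two sets of marks. -/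
structure Core where
  X₁ : Finset ℕ
  X₂ : Finset ℕ
  A₁ : Finset ℕ
  A₂ : Finset ℕ

/-- Validity of a core. -/
structure Core.Valid (d : ℕ) (c : Core) : Prop where
  card₁ : c.X₁.card = 22 * d - 2
  card₂ : c.X₂.card = 22 * d - 2
  cardW : (c.X₁ ∩ c.X₂).card = 2 * d - 2
  sub₁ : c.A₁ ⊆ c.X₁ \ c.X₂
  sub₂ : c.A₂ ⊆ c.X₂ \ c.X₁
  cardA₁ : c.A₁.card = 4 * d
  cardA₂ : c.A₂.card = 4 * d

/-- The common part of the columns. -/
def Core.W (c : Core) : Finset ℕ := c.X₁ ∩ c.X₂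

/-- The marks together with the common part. -/
def Core.U (c : Core) : Finset ℕ := c.A₁ ∪ c.A₂ ∪ c.W

/-- The core edges. -/
def Core.core (c : Core) : Finset (Finset ℕ) :=
  c.A₁.image (fun a => c.X₁.erase a) ∪ c.A₂.image (fun a => c.X₂.erase a)

/-- The cell of `w` at `Z`. -/
def Core.cell (c : Core) (Z : Finset ℕ) (w : ℕ) : Finset ℕ := Z ∪ c.U.erase w

/-- The box at `Z`. -/
def Core.box (c : Core) (Z : Finset ℕ) : Finset (Finset ℕ) := c.W.image (fun w => c.cell Z w)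

/-- Admissible `Z`. -/
structure ZOk (d : ℕ) (c : Core) (Z : Finset ℕ) : Prop where
  card : Z.card = 12 * d
  disj₁ : Disjoint Z c.X₁
  disj₂ : Disjoint Z c.X₂

/-- Exchange of the two columns. -/
def Core.swap (c : Core) : Core := ⟨c.X₂, c.X₁, c.A₂, c.A₁⟩

/-- Data of a copy of the target. -/
structure Cp where
  c : Core
  Z : Finset ℕ
  T : Finset ℕ

/-- Validity of a copy. -/
structure Cp.Valid (d : ℕ) (P : Cp) : Prop where
  core : P.c.Valid d
  z : ZOk d P.c P.Z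
  sub : P.T ⊆ P.c.W
  cardT : P.T.card = d

/-- The cells of a copy. -/
def Cp.cells (P : Cp) : Finset (Finset ℕ) := P.T.image (fun w => P.c.cell P.Z w)

/-- The edges of a copy. -/
def Cp.edges (P : Cp) : Finset (Finset ℕ) := P.c.core ∪ P.cells

/-- The box of a copy. -/
def Cp.box (P : Cp) : Finset (Finset ℕ) := P.c.box P.Z

/-- A family of edges contains a copy. -/
def HasCopy (d : ℕ) (S : Finset (Finset ℕ)) : Prop := ∃ P : Cp, P.Valid d ∧ P.edges ⊆ S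

lemma HasCopy.mono {d : ℕ} {S S' : Finset (Finset ℕ)} (h : S ⊆ S') (hS : HasCopy d S) :
    HasCopy d S' := by
  obtain ⟨P, hP, hPS⟩ := hS
  exact ⟨P, hP, hPS.trans h⟩

/-! ### Swapping -/

lemma swap_valid {d : ℕ} {c : Core} (h : c.Valid d) : c.swap.Valid d :=
  ⟨h.card₂, h.card₁, by
    have := h.cardW
    rwa [Finset.inter_comm] at this, h.sub₂, h.sub₁, h.cardA₂, h.cardA₁⟩

@[simp] lemma swap_swap (c : Core) : c.swap.swap = c := rfl

@[simp] lemma swap_W (c : Core) : c.swap.W = c.W := Finset.inter_comm _ _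

@[simp] lemma swap_U (c : Core) : c.swap.U = c.U := by
  show c.A₂ ∪ c.A₁ ∪ c.swap.W = c.A₁ ∪ c.A₂ ∪ c.W
  rw [swap_W, Finset.union_comm c.A₂]

@[simp] lemma swap_core (c : Core) : c.swap.core = c.core := Finset.union_comm _ _

@[simp] lemma swap_cell (c : Core) (Z : Finset ℕ) (w : ℕ) : c.swap.cell Z w = c.cell Z w := by
  simp [Core.cell]

@[simp] lemma swap_box (c : Core) (Z : Finset ℕ) : c.swap.box Z = c.box Z := by
  simp [Core.box]

lemma swap_ZOk {d : ℕ} {c : Core} {Z : Finset ℕ} (h : ZOk d c Z) : ZOk d c.swap Z :=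
  ⟨h.card, h.disj₂, h.disj₁⟩

/-! ### Membership facts -/

variable {d : ℕ} {c : Core} {Z : Finset ℕ}

lemma mem_W {x : ℕ} : x ∈ c.W ↔ x ∈ c.X₁ ∧ x ∈ c.X₂ := by
  simp [Core.W]

lemma mem_U {x : ℕ} : x ∈ c.U ↔ x ∈ c.A₁ ∨ x ∈ c.A₂ ∨ x ∈ c.W := by
  simp [Core.U, or_assoc]

lemma mem_core {e : Finset ℕ} :
    e ∈ c.core ↔ (∃ a ∈ c.A₁, c.X₁.erase a = e) ∨ (∃ a ∈ c.A₂, c.X₂.erase a = e) := by
  simp [Core.core]

lemma mem_box {e : Finset ℕ} : e ∈ c.box Z ↔ ∃ w ∈ c.W, c.cell Z w = e := by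
  simp [Core.box]

lemma mem_cell {w x : ℕ} : x ∈ c.cell Z w ↔ x ∈ Z ∨ (x ≠ w ∧ x ∈ c.U) := by
  simp [Core.cell]

lemma Core.Valid.A₁_mem (h : c.Valid d) {x : ℕ} (hx : x ∈ c.A₁) : x ∈ c.X₁ ∧ x ∉ c.X₂ := by
  have := h.sub₁ hx
  simpa using this

lemma Core.Valid.A₂_mem (h : c.Valid d) {x : ℕ} (hx : x ∈ c.A₂) : x ∈ c.X₂ ∧ x ∉ c.X₁ := by
  have := h.sub₂ hx
  simpa using this

lemma Core.Valid.U_mem (h : c.Valid d) {x : ℕ} (hx : x ∈ c.U) : x ∈ c.X₁ ∨ x ∈ c.X₂ := by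
  rcases mem_U.1 hx with h1 | h1 | h1
  · exact Or.inl (h.A₁_mem h1).1
  · exact Or.inr (h.A₂_mem h1).1
  · exact Or.inl (mem_W.1 h1).1

lemma Core.Valid.cardU (h : c.Valid d) (hd : 3 ≤ d) : c.U.card = 10 * d - 2 := by
  have h1 : Disjoint c.A₁ c.A₂ := by
    rw [Finset.disjoint_left]
    intro x hx hx2
    exact (h.A₂_mem hx2).2 (h.A₁_mem hx).1
  have h2 : Disjoint (c.A₁ ∪ c.A₂) c.W := by
    rw [Finset.disjoint_left]
    intro x hx hx2
    rcases Finset.mem_union.1 hx with h3 | h3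
    · exact (h.A₁_mem h3).2 (mem_W.1 hx2).2
    · exact (h.A₂_mem h3).2 (mem_W.1 hx2).1
  have h3 : c.W.card = 2 * d - 2 := h.cardW
  rw [Core.U, Finset.card_union_of_disjoint h2, Finset.card_union_of_disjoint h1, h.cardA₁,
    h.cardA₂, h3]
  omega

lemma W_sub_U : c.W ⊆ c.U := fun _ hx => mem_U.2 (Or.inr (Or.inr hx))

lemma cell_card (hd : 3 ≤ d) (h : c.Valid d) (hZ : ZOk d c Z) {w : ℕ} (hw : w ∈ c.W) :
    (c.cell Z w).card = 22 * d - 3 := by
  have h1 : Disjoint Z (c.U.erase w) := by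
    rw [Finset.disjoint_left]
    intro x hx hx2
    rcases h.U_mem (Finset.mem_of_mem_erase hx2) with h3 | h3
    · exact Finset.disjoint_left.1 hZ.disj₁ hx h3
    · exact Finset.disjoint_left.1 hZ.disj₂ hx h3
  rw [Core.cell, Finset.card_union_of_disjoint h1, Finset.card_erase_of_mem (W_sub_U hw),
    h.cardU hd, hZ.card]
  omega

lemma box_card (hd : 3 ≤ d) (h : c.Valid d) (hZ : ZOk d c Z) : (c.box Z).card = 2 * d - 2 := by
  rw [Core.box, Finset.card_image_of_injOn]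
  · exact h.cardW
  · intro w hw w' hw' hEq
    by_contra hne
    have hw'' : w ∈ c.cell Z w' := mem_cell.2 (Or.inr ⟨hne, W_sub_U hw⟩)
    have hEq' : c.cell Z w = c.cell Z w' := hEq
    rw [← hEq'] at hw''
    rcases mem_cell.1 hw'' with h1 | h1
    · exact Finset.disjoint_left.1 hZ.disj₁ h1 (mem_W.1 hw).1
    · exact h1.1 rfl

lemma box_elem_card (hd : 3 ≤ d) (h : c.Valid d) (hZ : ZOk d c Z) {e : Finset ℕ}
    (he : e ∈ c.box Z) : e.card = 22 * d - 3 := by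
  obtain ⟨w, hw, rfl⟩ := mem_box.1 he
  exact cell_card hd h hZ hw

lemma core_elem_card (h : c.Valid d) {e : Finset ℕ} (he : e ∈ c.core) : e.card = 22 * d - 3 := by
  rcases mem_core.1 he with ⟨a, ha, rfl⟩ | ⟨a, ha, rfl⟩
  · rw [Finset.card_erase_of_mem (h.A₁_mem ha).1, h.card₁]; omega
  · rw [Finset.card_erase_of_mem (h.A₂_mem ha).1, h.card₂]; omega

lemma cell_inj (hZ : ZOk d c Z) {w w' : ℕ} (hw : w ∈ c.W) (hw' : w' ∈ c.W)
    (hEq : c.cell Z w = c.cell Z w') : w = w' := by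
  by_contra hne
  have hw'' : w ∈ c.cell Z w' := mem_cell.2 (Or.inr ⟨hne, W_sub_U hw⟩)
  rw [← hEq] at hw''
  rcases mem_cell.1 hw'' with h1 | h1
  · exact Finset.disjoint_left.1 hZ.disj₁ h1 (mem_W.1 hw).1
  · exact h1.1 rfl

/-- The part of a cell outside the columns. -/
lemma cell_sdiff (h : c.Valid d) (hZ : ZOk d c Z) (w : ℕ) :
    c.cell Z w \ (c.X₁ ∪ c.X₂) = Z := by
  ext x
  rw [Finset.mem_sdiff, Finset.mem_union, mem_cell]
  constructor
  · rintro ⟨h1 | h1, h2⟩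
    · exact h1
    · exact absurd (h.U_mem h1.2) h2
  · intro hx
    refine ⟨Or.inl hx, ?_⟩
    rintro (h1 | h1)
    · exact Finset.disjoint_left.1 hZ.disj₁ hx h1
    · exact Finset.disjoint_left.1 hZ.disj₂ hx h1

lemma cell_inter (h : c.Valid d) (hZ : ZOk d c Z) (w : ℕ) :
    c.cell Z w ∩ (c.X₁ ∪ c.X₂) = c.U.erase w := by
  ext x
  rw [Finset.mem_inter, Finset.mem_union, mem_cell, Finset.mem_erase]
  constructor
  · rintro ⟨h1 | h1, h2⟩
    · rcases h2 with h2 | h2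
      · exact absurd h2 (Finset.disjoint_left.1 hZ.disj₁ h1)
      · exact absurd h2 (Finset.disjoint_left.1 hZ.disj₂ h1)
    · exact h1
  · intro hx
    exact ⟨Or.inr hx, h.U_mem hx.2⟩

/-- The marks of the first column are read off a cell. -/
lemma cell_A₁ (h : c.Valid d) (hZ : ZOk d c Z) {w : ℕ} (hw : w ∈ c.W) :
    (c.cell Z w ∩ c.X₁) \ c.X₂ = c.A₁ := by
  ext x
  rw [Finset.mem_sdiff, Finset.mem_inter, mem_cell, mem_U]
  constructor
  · rintro ⟨⟨h1 | ⟨_, h1 | h1 | h1⟩, h2⟩, h3⟩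
    · exact absurd h2 (Finset.disjoint_left.1 hZ.disj₁ h1)
    · exact h1
    · exact absurd h2 (h.A₂_mem h1).2
    · exact absurd (mem_W.1 h1).2 h3
  · intro hx
    have h1 := h.A₁_mem hx
    refine ⟨⟨Or.inr ⟨?_, Or.inl hx⟩, h1.1⟩, h1.2⟩
    rintro rfl
    exact h1.2 (mem_W.1 hw).2

lemma cell_A₂ (h : c.Valid d) (hZ : ZOk d c Z) {w : ℕ} (hw : w ∈ c.W) :
    (c.cell Z w ∩ c.X₂) \ c.X₁ = c.A₂ := by
  have := cell_A₁ (swap_valid h) (swap_ZOk hZ) (w := w) (by rw [swap_W]; exact hw)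
  rw [swap_cell] at this
  exact this

lemma A₁_sub_cell (h : c.Valid d) {w : ℕ} (hw : w ∈ c.W) : c.A₁ ⊆ c.cell Z w := by
  intro x hx
  refine mem_cell.2 (Or.inr ⟨?_, mem_U.2 (Or.inl hx)⟩)
  rintro rfl
  exact (h.A₁_mem hx).2 (mem_W.1 hw).2

lemma A₂_sub_cell (h : c.Valid d) {w : ℕ} (hw : w ∈ c.W) : c.A₂ ⊆ c.cell Z w := by
  intro x hx
  refine mem_cell.2 (Or.inr ⟨?_, mem_U.2 (Or.inr (Or.inl hx))⟩)
  rintro rfl
  exact (h.A₂_mem hx).2 (mem_W.1 hw).1

/-- A cell is not contained in the first column. -/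
lemma cell_not_sub₁ (hd : 3 ≤ d) (h : c.Valid d) {w : ℕ} (hw : w ∈ c.W) :
    ¬ c.cell Z w ⊆ c.X₁ := by
  intro hsub
  obtain ⟨x, hx⟩ : c.A₂.Nonempty := by
    rw [← Finset.card_pos, h.cardA₂]; omega
  exact (h.A₂_mem hx).2 (hsub (A₂_sub_cell h hw hx))

lemma cell_not_sub₂ (hd : 3 ≤ d) (h : c.Valid d) {w : ℕ} (hw : w ∈ c.W) :
    ¬ c.cell Z w ⊆ c.X₂ := by
  intro hsub
  obtain ⟨x, hx⟩ : c.A₁.Nonempty := by
    rw [← Finset.card_pos, h.cardA₁]; omega
  exact (h.A₁_mem hx).2 (hsub (A₁_sub_cell h hw hx))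

lemma cell_not_core (hd : 3 ≤ d) (h : c.Valid d) {w : ℕ} (hw : w ∈ c.W) :
    c.cell Z w ∉ c.core := by
  intro hc
  rcases mem_core.1 hc with ⟨a, _, ha⟩ | ⟨a, _, ha⟩
  · exact cell_not_sub₁ hd h hw (Z := Z) (by rw [← ha]; exact Finset.erase_subset _ _)
  · exact cell_not_sub₂ hd h hw (Z := Z) (by rw [← ha]; exact Finset.erase_subset _ _)

/-- `X₁ \ a` is not contained in `X₂`. -/
lemma erase₁_not_sub₂ (hd : 3 ≤ d) (h : c.Valid d) (a : ℕ) : ¬ c.X₁.erase a ⊆ c.X₂ := by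
  intro hsub
  have h1 : c.X₁.erase a ⊆ c.X₁ ∩ c.X₂ :=
    Finset.subset_inter (Finset.erase_subset _ _) hsub
  have h2 := Finset.card_le_card h1
  have h3 := Finset.pred_card_le_card_erase (s := c.X₁) (a := a)
  rw [h.cardW] at h2
  rw [h.card₁] at h3
  omega

lemma erase₂_not_sub₁ (hd : 3 ≤ d) (h : c.Valid d) (a : ℕ) : ¬ c.X₂.erase a ⊆ c.X₁ :=
  erase₁_not_sub₂ hd (swap_valid h) a

lemma erase_inj {X : Finset ℕ} {a b : ℕ} (ha : a ∈ X) (h : X.erase a = X.erase b) :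
    a = b := by
  by_contra hne
  have : a ∈ X.erase b := Finset.mem_erase.2 ⟨hne, ha⟩
  rw [← h] at this
  exact (Finset.mem_erase.1 this).1 rfl

lemma erase₁_mem_core (hd : 3 ≤ d) (h : c.Valid d) {a : ℕ} (ha : a ∈ c.X₁) :
    c.X₁.erase a ∈ c.core ↔ a ∈ c.A₁ := by
  constructor
  · intro hc
    rcases mem_core.1 hc with ⟨b, hb, hab⟩ | ⟨b, hb, hab⟩
    · rwa [erase_inj ha hab.symm]
    · exact absurd (by rw [← hab]; exact Finset.erase_subset _ _) (erase₁_not_sub₂ hd h a)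
  · intro hc
    exact mem_core.2 (Or.inl ⟨a, hc, rfl⟩)

lemma erase₂_mem_core (hd : 3 ≤ d) (h : c.Valid d) {a : ℕ} (ha : a ∈ c.X₂) :
    c.X₂.erase a ∈ c.core ↔ a ∈ c.A₂ := by
  have := erase₁_mem_core hd (swap_valid h) (a := a) ha
  rw [swap_core] at this
  exact this

lemma core_card (hd : 3 ≤ d) (h : c.Valid d) : c.core.card = 8 * d := by
  rw [Core.core, Finset.card_union_of_disjoint]
  · rw [Finset.card_image_of_injOn, Finset.card_image_of_injOn, h.cardA₁, h.cardA₂]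
    · ring
    · intro a ha b _ hab
      exact erase_inj (h.A₂_mem ha).1 hab
    · intro a ha b _ hab
      exact erase_inj (h.A₁_mem ha).1 hab
  · rw [Finset.disjoint_left]
    intro e he he2
    obtain ⟨a, ha, rfl⟩ := Finset.mem_image.1 he
    obtain ⟨b, hb, hab⟩ := Finset.mem_image.1 he2
    exact erase₁_not_sub₂ hd h a (by rw [← hab]; exact Finset.erase_subset _ _)

lemma cells_card {P : Cp} (hP : P.Valid d) : P.cells.card = d := by
  rw [Cp.cells, Finset.card_image_of_injOn, hP.cardT]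
  intro w hw w' hw' hEq
  exact cell_inj hP.z (hP.sub hw) (hP.sub hw') hEq

lemma mem_cells {P : Cp} {e : Finset ℕ} : e ∈ P.cells ↔ ∃ w ∈ P.T, P.c.cell P.Z w = e := by
  simp [Cp.cells]

lemma cells_sub_box {P : Cp} (hP : P.Valid d) : P.cells ⊆ P.box := by
  intro e he
  obtain ⟨w, hw, rfl⟩ := mem_cells.1 he
  exact mem_box.2 ⟨w, hP.sub hw, rfl⟩

lemma core_cells_disjoint (hd : 3 ≤ d) {P : Cp} (hP : P.Valid d) :
    Disjoint P.c.core P.cells := by
  rw [Finset.disjoint_right]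
  intro e he
  obtain ⟨w, hw, rfl⟩ := mem_cells.1 he
  exact cell_not_core hd hP.core (hP.sub hw)

lemma edges_card (hd : 3 ≤ d) {P : Cp} (hP : P.Valid d) : P.edges.card = 9 * d := by
  rw [Cp.edges, Finset.card_union_of_disjoint (core_cells_disjoint hd hP), core_card hd hP.core,
    cells_card hP]
  ring

/-- Two boxes of the same core at different places are disjoint. -/
lemma box_disjoint (h : c.Valid d) {Z' : Finset ℕ} (hZ : ZOk d c Z) (hZ' : ZOk d c Z')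
    {e : Finset ℕ} (he : e ∈ c.box Z) (he' : e ∈ c.box Z') : Z = Z' := by
  obtain ⟨w, hw, rfl⟩ := mem_box.1 he
  obtain ⟨w', hw', hEq⟩ := mem_box.1 he'
  rw [← cell_sdiff h hZ w, ← hEq, cell_sdiff h hZ' w']

/-- Exchange of the two columns in a copy. -/
def Cp.swap (P : Cp) : Cp := ⟨P.c.swap, P.Z, P.T⟩

lemma Cp.swap_valid {P : Cp} (h : P.Valid d) : P.swap.Valid d :=
  ⟨RG.swap_valid h.core, swap_ZOk h.z, by
    show P.T ⊆ P.c.swap.W
    rw [swap_W]; exact h.sub, h.cardT⟩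

@[simp] lemma Cp.swap_edges (P : Cp) : P.swap.edges = P.edges := by
  simp [Cp.swap, Cp.edges, Cp.cells]

@[simp] lemma Cp.swap_box (P : Cp) : P.swap.box = P.box := by
  simp [Cp.swap, Cp.box]

@[simp] lemma Cp.swap_cells (P : Cp) : P.swap.cells = P.cells := by
  simp [Cp.swap, Cp.cells]

end Run7.h137.RG
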