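import Pool.Agent.Run7.h137.RGCore

set_option autoImplicit false

/-!
The target hypergraph on `Fin n` and the translation between embeddings and copies.
-/

namespace Run7.h137.RG

/-- Sizes of the seven classes of vertices. -/
def sz (d : ℕ) : Fin 7 → ℕ := ![d, d - 2, 4 * d, 4 * d, 16 * d, 16 * d, 12 * d]

/-- The vertices. -/
abbrev VV (d : ℕ) := Σ i : Fin 7, Fin (sz d i)

/-- The vertices of the classes in `s`. -/
def part (d : ℕ) (s : Finset (Fin 7)) : Finset (VV d) :=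
  s.sigma (fun i => (Finset.univ : Finset (Fin (sz d i))))

lemma mem_part {d : ℕ} {s : Finset (Fin 7)} {v : VV d} : v ∈ part d s ↔ v.1 ∈ s := by
  simp [part]

lemma card_part (d : ℕ) (s : Finset (Fin 7)) : (part d s).card = ∑ i ∈ s, sz d i := by
  simp [part, Finset.card_sigma]

def X₁V (d : ℕ) : Finset (VV d) := part d {0, 1, 2, 4}
def X₂V (d : ℕ) : Finset (VV d) := part d {0, 1, 3, 5}
def A₁V (d : ℕ) : Finset (VV d) := part d {2}
def A₂V (d : ℕ) : Finset (VV d) := part d {3}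
def ZV (d : ℕ) : Finset (VV d) := part d {6}
def TV (d : ℕ) : Finset (VV d) := part d {0}
def UV (d : ℕ) : Finset (VV d) := A₁V d ∪ A₂V d ∪ (X₁V d ∩ X₂V d)

/-- The target hypergraph on the abstract vertices. -/
def HV (d : ℕ) : Finset (Finset (VV d)) :=
  (A₁V d).image (fun a => (X₁V d).erase a) ∪ (A₂V d).image (fun a => (X₂V d).erase a) ∪
    (TV d).image (fun w => ZV d ∪ (UV d).erase w)

/-- The copy of an injection. -/
def cpOf (d : ℕ) (f : VV d → ℕ) : Cp :=
  ⟨⟨(X₁V d).image f, (X₂V d).image f, (A₁V d).image f, (A₂V d).image f⟩, (ZV d).image f,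
    (TV d).image f⟩

lemma cpOf_U {d : ℕ} {f : VV d → ℕ} (hf : Function.Injective f) :
    (cpOf d f).c.U = (UV d).image f := by
  show (A₁V d).image f ∪ (A₂V d).image f ∪ ((X₁V d).image f ∩ (X₂V d).image f) = (UV d).image f
  rw [UV, Finset.image_union, Finset.image_union, Finset.image_inter _ _ hf]

lemma cpOf_valid {d : ℕ} (hd : 3 ≤ d) {f : VV d → ℕ} (hf : Function.Injective f) :
    (cpOf d f).Valid d := by
  have hc : ∀ s : Finset (Fin 7), ((part d s).image f).card = ∑ i ∈ s, sz d i := by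
    intro s
    rw [Finset.card_image_of_injective _ hf, card_part]
  have hm : ∀ (s : Finset (Fin 7)) (v : VV d), f v ∈ (part d s).image f ↔ v.1 ∈ s := by
    intro s v
    rw [hf.mem_finset_image, mem_part]
  refine ⟨⟨?_, ?_, ?_, ?_, ?_, ?_, ?_⟩, ⟨?_, ?_, ?_⟩, ?_, ?_⟩
  · show ((X₁V d).image f).card = _
    rw [X₁V, hc]; simp [sz]; omega
  · show ((X₂V d).image f).card = _
    rw [X₂V, hc]; simp [sz]; omega
  · show ((X₁V d).image f ∩ (X₂V d).image f).card = _
    have : X₁V d ∩ X₂V d = part d {0, 1} := by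
      ext v
      rw [Finset.mem_inter, X₁V, X₂V, mem_part, mem_part, mem_part]
      generalize v.1 = i
      revert i; decide
    rw [← Finset.image_inter _ _ hf, this, hc]; simp [sz]; omega
  · intro x hx
    obtain ⟨v, hv, rfl⟩ := Finset.mem_image.1 hx
    show f v ∈ (X₁V d).image f \ (X₂V d).image f
    rw [A₁V, mem_part] at hv
    rw [Finset.mem_sdiff, X₁V, X₂V, hm, hm]
    rw [Finset.mem_singleton.1 hv]; decide
  · intro x hx
    obtain ⟨v, hv, rfl⟩ := Finset.mem_image.1 hx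
    show f v ∈ (X₂V d).image f \ (X₁V d).image f
    rw [A₂V, mem_part] at hv
    rw [Finset.mem_sdiff, X₁V, X₂V, hm, hm]
    rw [Finset.mem_singleton.1 hv]; decide
  · show ((A₁V d).image f).card = _
    rw [A₁V, hc]; simp [sz]
  · show ((A₂V d).image f).card = _
    rw [A₂V, hc]; simp [sz]
  · show ((ZV d).image f).card = _
    rw [ZV, hc]; simp [sz]
  · show Disjoint ((ZV d).image f) ((X₁V d).image f)
    rw [Finset.disjoint_left]
    intro x hx
    obtain ⟨v, hv, rfl⟩ := Finset.mem_image.1 hx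
    rw [ZV, mem_part] at hv
    rw [X₁V, hm, Finset.mem_singleton.1 hv]; decide
  · show Disjoint ((ZV d).image f) ((X₂V d).image f)
    rw [Finset.disjoint_left]
    intro x hx
    obtain ⟨v, hv, rfl⟩ := Finset.mem_image.1 hx
    rw [ZV, mem_part] at hv
    rw [X₂V, hm, Finset.mem_singleton.1 hv]; decide
  · intro x hx
    obtain ⟨v, hv, rfl⟩ := Finset.mem_image.1 hx
    show f v ∈ (X₁V d).image f ∩ (X₂V d).image f
    rw [TV, mem_part] at hv
    rw [Finset.mem_inter, X₁V, X₂V, hm, hm, Finset.mem_singleton.1 hv]; decide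
  · show ((TV d).image f).card = _
    rw [TV, hc]; simp [sz]

lemma cpOf_edges {d : ℕ} {f : VV d → ℕ} (hf : Function.Injective f) :
    (cpOf d f).edges = (HV d).image (fun e => e.image f) := by
  rw [HV, Finset.image_union, Finset.image_union, Finset.image_image, Finset.image_image,
    Finset.image_image, Cp.edges, Core.core, Cp.cells]
  congr 1
  · congr 1
    · show ((A₁V d).image f).image (fun a => ((X₁V d).image f).erase a) = _
      rw [Finset.image_image]
      apply Finset.image_congr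
      intro a _
      show ((X₁V d).image f).erase (f a) = ((X₁V d).erase a).image f
      rw [Finset.image_erase hf]
    · show ((A₂V d).image f).image (fun a => ((X₂V d).image f).erase a) = _
      rw [Finset.image_image]
      apply Finset.image_congr
      intro a _
      show ((X₂V d).image f).erase (f a) = ((X₂V d).erase a).image f
      rw [Finset.image_erase hf]
  · show ((TV d).image f).image (fun w => (cpOf d f).c.cell ((ZV d).image f) w) = _
    rw [Finset.image_image]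
    apply Finset.image_congr
    intro w _
    show (ZV d).image f ∪ ((cpOf d f).c.U).erase (f w) = (ZV d ∪ (UV d).erase w).image f
    rw [cpOf_U hf, Finset.image_union, Finset.image_erase hf]

/-- Every copy comes from an injection. -/
lemma exists_cpOf {d : ℕ} (hd : 3 ≤ d) {P : Cp} (hP : P.Valid d) :
    ∃ f : VV d → ℕ, Function.Injective f ∧ cpOf d f = P := by
  classical
  -- the seven parts
  let p : Fin 7 → Finset ℕ := ![P.T, P.c.W \ P.T, P.c.A₁, P.c.A₂, (P.c.X₁ \ P.c.X₂) \ P.c.A₁,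
    (P.c.X₂ \ P.c.X₁) \ P.c.A₂, P.Z]
  have hW : P.c.W.card = 2 * d - 2 := hP.core.cardW
  have hp : ∀ i, (p i).card = sz d i := by
    have h1 : (P.c.X₁ \ P.c.X₂).card = 20 * d := by
      have := Finset.card_sdiff_add_card_inter P.c.X₁ P.c.X₂
      have h2 := hP.core.card₁
      have h3 := hP.core.cardW
      omega
    have h2 : (P.c.X₂ \ P.c.X₁).card = 20 * d := by
      have := Finset.card_sdiff_add_card_inter P.c.X₂ P.c.X₁
      rw [Finset.inter_comm] at this
      have h2 := hP.core.card₂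
      have h3 := hP.core.cardW
      omega
    have e0 : P.T.card = d := hP.cardT
    have e1 : (P.c.W \ P.T).card = d - 2 := by
      rw [Finset.card_sdiff_of_subset hP.sub, hW, hP.cardT]; omega
    have e2 : P.c.A₁.card = 4 * d := hP.core.cardA₁
    have e3 : P.c.A₂.card = 4 * d := hP.core.cardA₂
    have e4 : ((P.c.X₁ \ P.c.X₂) \ P.c.A₁).card = 16 * d := by
      rw [Finset.card_sdiff_of_subset hP.core.sub₁, h1, hP.core.cardA₁]; omega
    have e5 : ((P.c.X₂ \ P.c.X₁) \ P.c.A₂).card = 16 * d := by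
      rw [Finset.card_sdiff_of_subset hP.core.sub₂, h2, hP.core.cardA₂]; omega
    have e6 : P.Z.card = 12 * d := hP.z.card
    intro i
    fin_cases i
    · exact e0
    · exact e1
    · exact e2
    · exact e3
    · exact e4
    · exact e5
    · exact e6
  -- which part contains a vertex
  have hT : ∀ x, x ∈ P.T → x ∈ P.c.X₁ ∧ x ∈ P.c.X₂ := fun x hx => mem_W.1 (hP.sub hx)
  have hA1 : ∀ x, x ∈ P.c.A₁ → x ∈ P.c.X₁ ∧ x ∉ P.c.X₂ := fun x hx => hP.core.A₁_mem hx
  have hA2 : ∀ x, x ∈ P.c.A₂ → x ∈ P.c.X₂ ∧ x ∉ P.c.X₁ := fun x hx => hP.core.A₂_mem hx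
  have hZ : ∀ x, x ∈ P.Z → x ∉ P.c.X₁ ∧ x ∉ P.c.X₂ := fun x hx =>
    ⟨Finset.disjoint_left.1 hP.z.disj₁ hx, Finset.disjoint_left.1 hP.z.disj₂ hx⟩
  have m0 : ∀ x, x ∈ p 0 ↔ x ∈ P.T := fun _ => Iff.rfl
  have m1 : ∀ x, x ∈ p 1 ↔ (x ∈ P.c.X₁ ∧ x ∈ P.c.X₂) ∧ x ∉ P.T := fun x => by
    show x ∈ P.c.W \ P.T ↔ _
    rw [Finset.mem_sdiff, mem_W]
  have m2 : ∀ x, x ∈ p 2 ↔ x ∈ P.c.A₁ := fun _ => Iff.rfl
  have m3 : ∀ x, x ∈ p 3 ↔ x ∈ P.c.A₂ := fun _ => Iff.rfl
  have m4 : ∀ x, x ∈ p 4 ↔ (x ∈ P.c.X₁ ∧ x ∉ P.c.X₂) ∧ x ∉ P.c.A₁ := fun x => by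
    show x ∈ (P.c.X₁ \ P.c.X₂) \ P.c.A₁ ↔ _
    rw [Finset.mem_sdiff, Finset.mem_sdiff]
  have m5 : ∀ x, x ∈ p 5 ↔ (x ∈ P.c.X₂ ∧ x ∉ P.c.X₁) ∧ x ∉ P.c.A₂ := fun x => by
    show x ∈ (P.c.X₂ \ P.c.X₁) \ P.c.A₂ ↔ _
    rw [Finset.mem_sdiff, Finset.mem_sdiff]
  have m6 : ∀ x, x ∈ p 6 ↔ x ∈ P.Z := fun _ => Iff.rfl
  let cl : ℕ → Fin 7 := fun x => if x ∈ P.T then 0 else if x ∈ P.c.A₁ then 2 else
    if x ∈ P.c.A₂ then 3 else if x ∈ P.Z then 6 else if x ∈ P.c.X₁ ∧ x ∈ P.c.X₂ then 1 else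
    if x ∈ P.c.X₁ then 4 else 5
  have c0 : ∀ x, x ∈ P.T → cl x = 0 := by
    intro x hx
    simp only [cl]
    rw [if_pos hx]
  have c1 : ∀ x, (x ∈ P.c.X₁ ∧ x ∈ P.c.X₂) ∧ x ∉ P.T → cl x = 1 := by
    rintro x ⟨⟨h1, h2⟩, h3⟩
    simp only [cl]
    rw [if_neg h3, if_neg (fun h => (hA1 x h).2 h2), if_neg (fun h => (hA2 x h).2 h1),
      if_neg (fun h => (hZ x h).1 h1), if_pos ⟨h1, h2⟩]
  have c2 : ∀ x, x ∈ P.c.A₁ → cl x = 2 := by
    intro x hx
    simp only [cl]
    rw [if_neg (fun h => (hA1 x hx).2 (hT x h).2), if_pos hx]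
  have c3 : ∀ x, x ∈ P.c.A₂ → cl x = 3 := by
    intro x hx
    simp only [cl]
    rw [if_neg (fun h => (hA2 x hx).2 (hT x h).1), if_neg (fun h => (hA2 x hx).2 (hA1 x h).1),
      if_pos hx]
  have c4 : ∀ x, (x ∈ P.c.X₁ ∧ x ∉ P.c.X₂) ∧ x ∉ P.c.A₁ → cl x = 4 := by
    rintro x ⟨⟨h1, h2⟩, h3⟩
    simp only [cl]
    rw [if_neg (fun h => h2 (hT x h).2), if_neg h3, if_neg (fun h => (hA2 x h).2 h1),
      if_neg (fun h => (hZ x h).1 h1), if_neg (fun h => h2 h.2), if_pos h1]
  have c5 : ∀ x, (x ∈ P.c.X₂ ∧ x ∉ P.c.X₁) ∧ x ∉ P.c.A₂ → cl x = 5 := by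
    rintro x ⟨⟨h1, h2⟩, h3⟩
    simp only [cl]
    rw [if_neg (fun h => h2 (hT x h).1), if_neg (fun h => h2 (hA1 x h).1), if_neg h3,
      if_neg (fun h => (hZ x h).2 h1), if_neg (fun h => h2 h.1), if_neg h2]
  have c6 : ∀ x, x ∈ P.Z → cl x = 6 := by
    intro x hx
    simp only [cl]
    rw [if_neg (fun h => (hZ x hx).1 (hT x h).1), if_neg (fun h => (hZ x hx).1 (hA1 x h).1),
      if_neg (fun h => (hZ x hx).2 (hA2 x h).1), if_pos hx]
  have hcl : ∀ i : Fin 7, ∀ x, x ∈ p i → cl x = i := by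
    intro i
    fin_cases i
    · exact fun x hx => c0 x hx
    · exact fun x hx => c1 x ((m1 x).1 hx)
    · exact fun x hx => c2 x hx
    · exact fun x hx => c3 x hx
    · exact fun x hx => c4 x ((m4 x).1 hx)
    · exact fun x hx => c5 x ((m5 x).1 hx)
    · exact fun x hx => c6 x hx
  have hdisj : ∀ i j : Fin 7, ∀ x, x ∈ p i → x ∈ p j → i = j :=
    fun i j x hi hj => (hcl i x hi).symm.trans (hcl j x hj)
  let f : VV d → ℕ := fun v => ((p v.1).equivFinOfCardEq (hp v.1)).symm v.2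
  have hfmem : ∀ v : VV d, f v ∈ p v.1 := fun v =>
    (((p v.1).equivFinOfCardEq (hp v.1)).symm v.2).2
  have hfinj : Function.Injective f := by
    rintro ⟨i, x⟩ ⟨j, y⟩ hxy
    have h1 := hfmem ⟨i, x⟩
    have h2 := hfmem ⟨j, y⟩
    rw [hxy] at h1
    have hij : i = j := hdisj i j _ h1 h2
    subst hij
    have h3 : ((p i).equivFinOfCardEq (hp i)).symm x = ((p i).equivFinOfCardEq (hp i)).symm y :=
      Subtype.ext hxy
    rw [((p i).equivFinOfCardEq (hp i)).symm.injective h3]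
  have himg : ∀ s : Finset (Fin 7), ∀ x, x ∈ (part d s).image f ↔ ∃ i ∈ s, x ∈ p i := by
    intro s x
    constructor
    · intro hx
      obtain ⟨v, hv, rfl⟩ := Finset.mem_image.1 hx
      exact ⟨v.1, mem_part.1 hv, hfmem v⟩
    · rintro ⟨i, hi, hx⟩
      refine Finset.mem_image.2 ⟨⟨i, (p i).equivFinOfCardEq (hp i) ⟨x, hx⟩⟩, mem_part.2 hi, ?_⟩
      show (((p i).equivFinOfCardEq (hp i)).symm ((p i).equivFinOfCardEq (hp i) ⟨x, hx⟩) : ℕ) = x
      rw [Equiv.symm_apply_apply]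
  refine ⟨f, hfinj, ?_⟩
  have hX1 : (X₁V d).image f = P.c.X₁ := by
    ext x
    rw [X₁V, himg]
    simp only [Finset.mem_insert, Finset.mem_singleton, exists_eq_or_imp, exists_eq_left, m0, m1,
      m2, m4]
    have b0 := hT x
    have b2 := hA1 x
    tauto
  have hX2 : (X₂V d).image f = P.c.X₂ := by
    ext x
    rw [X₂V, himg]
    simp only [Finset.mem_insert, Finset.mem_singleton, exists_eq_or_imp, exists_eq_left, m0, m1,
      m3, m5]
    have b0 := hT x
    have b2 := hA2 x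
    tauto
  have hA1' : (A₁V d).image f = P.c.A₁ := by
    ext x
    rw [A₁V, himg]
    simp only [Finset.mem_singleton, exists_eq_left, m2]
  have hA2' : (A₂V d).image f = P.c.A₂ := by
    ext x
    rw [A₂V, himg]
    simp only [Finset.mem_singleton, exists_eq_left, m3]
  have hZ' : (ZV d).image f = P.Z := by
    ext x
    rw [ZV, himg]
    simp only [Finset.mem_singleton, exists_eq_left, m6]
  have hT' : (TV d).image f = P.T := by
    ext x
    rw [TV, himg]
    simp only [Finset.mem_singleton, exists_eq_left, m0]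
  rw [cpOf, hX1, hX2, hA1', hA2', hZ', hT']

/-! ### Degrees -/

lemma deg_X₁ {d : ℕ} (hd : 3 ≤ d) {P : Cp} (hP : P.Valid d) {x : ℕ} (hx : x ∈ P.c.X₁) :
    d ≤ (P.edges.filter (fun e => x ∈ e)).card := by
  have h1 : ((P.c.A₁.erase x).image (fun a => P.c.X₁.erase a)) ⊆
      P.edges.filter (fun e => x ∈ e) := by
    intro e he
    obtain ⟨a, ha, rfl⟩ := Finset.mem_image.1 he
    rw [Finset.mem_erase] at ha
    exact Finset.mem_filter.2 ⟨Finset.mem_union_left _ (mem_core.2 (Or.inl ⟨a, ha.2, rfl⟩)),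
      Finset.mem_erase.2 ⟨Ne.symm ha.1, hx⟩⟩
  have h2 := Finset.card_le_card h1
  rw [Finset.card_image_of_injOn] at h2
  · have h3 := Finset.pred_card_le_card_erase (s := P.c.A₁) (a := x)
    rw [hP.core.cardA₁] at h3
    omega
  · intro a ha b _ hab
    have ha' : a ∈ P.c.A₁.erase x := ha
    exact erase_inj (hP.core.A₁_mem (Finset.mem_of_mem_erase ha')).1 hab

lemma deg_X₂ {d : ℕ} (hd : 3 ≤ d) {P : Cp} (hP : P.Valid d) {x : ℕ} (hx : x ∈ P.c.X₂) :
    d ≤ (P.edges.filter (fun e => x ∈ e)).card := by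
  have := deg_X₁ hd (Cp.swap_valid hP) (x := x) hx
  rwa [Cp.swap_edges] at this

lemma deg_Z {d : ℕ} {P : Cp} (hP : P.Valid d) {x : ℕ} (hx : x ∈ P.Z) :
    d ≤ (P.edges.filter (fun e => x ∈ e)).card := by
  have h1 : P.cells ⊆ P.edges.filter (fun e => x ∈ e) := by
    intro e he
    refine Finset.mem_filter.2 ⟨Finset.mem_union_right _ he, ?_⟩
    obtain ⟨w, _, rfl⟩ := mem_cells.1 he
    exact mem_cell.2 (Or.inl hx)
  have h2 := Finset.card_le_card h1
  rwa [cells_card hP] at h2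

/-! ### The hypergraph on `Fin n` -/

/-- Number of vertices. -/
noncomputable def nn (d : ℕ) : ℕ := Fintype.card (VV d)

/-- The numbering of the vertices. -/
noncomputable def eqv (d : ℕ) : VV d ≃ Fin (nn d) := Fintype.equivFin (VV d)

/-- The target hypergraph. -/
noncomputable def HH (d : ℕ) : Finset (Finset (Fin (nn d))) :=
  (HV d).image (fun e => e.image (eqv d))

lemma HH_edges {d : ℕ} {f : Fin (nn d) → ℕ} (hf : Function.Injective f) :
    (HH d).image (fun e => e.image f) = (cpOf d (f ∘ eqv d)).edges := by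
  rw [cpOf_edges (hf.comp (eqv d).injective), HH, Finset.image_image]
  apply Finset.image_congr
  intro e _
  show (e.image (eqv d)).image f = e.image (f ∘ eqv d)
  rw [Finset.image_image]

lemma hasCopy_iff {d : ℕ} (hd : 3 ≤ d) (S : Finset (Finset ℕ)) :
    (∃ f : Fin (nn d) → ℕ, Function.Injective f ∧ ∀ e ∈ HH d, e.image f ∈ S) ↔ HasCopy d S := by
  constructor
  · rintro ⟨f, hf, h⟩
    refine ⟨cpOf d (f ∘ eqv d), cpOf_valid hd (hf.comp (eqv d).injective), ?_⟩
    rw [← HH_edges hf]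
    intro x hx
    obtain ⟨e, he, rfl⟩ := Finset.mem_image.1 hx
    exact h e he
  · rintro ⟨P, hP, hPS⟩
    obtain ⟨g, hg, rfl⟩ := exists_cpOf hd hP
    have hinj : Function.Injective (g ∘ (eqv d).symm) := hg.comp (eqv d).symm.injective
    refine ⟨g ∘ (eqv d).symm, hinj, ?_⟩
    have h1 := HH_edges hinj
    have h2 : (g ∘ (eqv d).symm) ∘ eqv d = g := by
      funext v; simp
    rw [h2] at h1
    intro e he
    apply hPS
    rw [← h1]
    exact Finset.mem_image_of_mem _ he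

lemma nn_pos {d : ℕ} (hd : 3 ≤ d) : 0 < nn d := by
  rw [nn, Fintype.card_pos_iff]
  exact ⟨⟨0, ⟨0, by show 0 < d; omega⟩⟩⟩

lemma val_inj (n : ℕ) : Function.Injective (fun i : Fin n => (i : ℕ)) := fun _ _ h => Fin.ext h

lemma HH_card {d : ℕ} (hd : 3 ≤ d) : ∀ e ∈ HH d, e.card = 22 * d - 3 := by
  intro e he
  have hf := val_inj (nn d)
  have hP := cpOf_valid hd (hf.comp (eqv d).injective)
  have h1 : e.image (fun i : Fin (nn d) => (i : ℕ)) ∈
      (cpOf d ((fun i : Fin (nn d) => (i : ℕ)) ∘ eqv d)).edges := by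
    rw [← HH_edges hf]
    exact Finset.mem_image_of_mem _ he
  rw [← Finset.card_image_of_injective e hf]
  rcases Finset.mem_union.1 h1 with h2 | h2
  · exact core_elem_card hP.core h2
  · exact box_elem_card hd hP.core hP.z (cells_sub_box hP h2)

lemma HH_deg {d : ℕ} (hd : 3 ≤ d) : ∀ v : Fin (nn d),
    d ≤ ((HH d).filter (fun e => v ∈ e)).card := by
  intro v
  have hf := val_inj (nn d)
  have hP := cpOf_valid hd (hf.comp (eqv d).injective)
  set f : Fin (nn d) → ℕ := fun i => (i : ℕ) with hfdef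
  set P := cpOf d (f ∘ eqv d) with hPdef
  -- the vertex lies in a column or in `Z`
  have hmem : f v ∈ P.c.X₁ ∨ f v ∈ P.c.X₂ ∨ f v ∈ P.Z := by
    have hv : f v = (f ∘ eqv d) ((eqv d).symm v) := by simp
    rw [hv]
    have hinj := hf.comp (eqv d).injective
    generalize (eqv d).symm v = u
    have h1 : (u.1 : Fin 7) ∈ ({0, 1, 2, 4} : Finset (Fin 7)) ∨
        (u.1 : Fin 7) ∈ ({0, 1, 3, 5} : Finset (Fin 7)) ∨
        (u.1 : Fin 7) ∈ ({6} : Finset (Fin 7)) := by
      generalize u.1 = i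
      revert i; decide
    rcases h1 with h1 | h1 | h1
    · exact Or.inl (Finset.mem_image_of_mem _ (mem_part.2 h1))
    · exact Or.inr (Or.inl (Finset.mem_image_of_mem _ (mem_part.2 h1)))
    · exact Or.inr (Or.inr (Finset.mem_image_of_mem _ (mem_part.2 h1)))
  have hdeg : d ≤ (P.edges.filter (fun e => f v ∈ e)).card := by
    rcases hmem with h1 | h1 | h1
    · exact deg_X₁ hd hP h1
    · exact deg_X₂ hd hP h1
    · exact deg_Z hP h1
  refine hdeg.trans ?_
  have hsub : P.edges.filter (fun e => f v ∈ e) ⊆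
      ((HH d).filter (fun e => v ∈ e)).image (fun e => e.image f) := by
    intro x hx
    rw [Finset.mem_filter, ← HH_edges hf] at hx
    obtain ⟨e, he, rfl⟩ := Finset.mem_image.1 hx.1
    refine Finset.mem_image.2 ⟨e, Finset.mem_filter.2 ⟨he, ?_⟩, rfl⟩
    exact hf.mem_finset_image.1 hx.2
  exact (Finset.card_le_card hsub).trans Finset.card_image_le

end Run7.h137.RG
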