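import Pool.Agent.Run7.h137.RGAttack

set_option autoImplicit false

/-!
The phases before the attack: opening, kill, and the phase in which the opponent attacks.
-/

namespace Run7.h137.RG

variable {d : ℕ} {D c : Core} {F S K R O : Finset (Finset ℕ)} {q Z : Finset ℕ}

/-! ### Overlays -/

lemma hit₁ (hd : 3 ≤ d) (hc : c.Valid d) (a w : ℕ) :
    ¬ Disjoint (c.X₁.erase a) (c.U.erase w) := by
  intro h
  obtain ⟨x, hx, hxa, hxw⟩ := exists_ne_ne (s := c.A₁) (by rw [hc.cardA₁]; omega) a w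
  exact Finset.disjoint_left.1 h (Finset.mem_erase.2 ⟨hxa, (hc.A₁_mem hx).1⟩)
    (Finset.mem_erase.2 ⟨hxw, mem_U.2 (Or.inl hx)⟩)

lemma hit₂ (hd : 3 ≤ d) (hc : c.Valid d) (a w : ℕ) :
    ¬ Disjoint (c.X₂.erase a) (c.U.erase w) := by
  have := hit₁ hd (swap_valid hc) a w
  rwa [swap_U] at this

lemma hit₃ (hd : 3 ≤ d) (hc : c.Valid d) {e : Finset ℕ} (w₁ w : ℕ)
    (he : ∀ x ∈ c.W, x ≠ w₁ → x ∈ e) : ¬ Disjoint e (c.U.erase w) := by
  intro h
  have hW : c.W.card = 2 * d - 2 := hc.cardW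
  obtain ⟨x, hx, hxa, hxw⟩ := exists_ne_ne (s := c.W) (by rw [hW]; omega) w₁ w
  exact Finset.disjoint_left.1 h (he x hx hxa) (Finset.mem_erase.2 ⟨hxw, W_sub_U hx⟩)

lemma hit_core (hd : 3 ≤ d) (hc : c.Valid d) {e : Finset ℕ} (he : e ∈ c.core) (w : ℕ) :
    ¬ Disjoint e (c.U.erase w) := by
  rcases mem_core.1 he with ⟨a, _, rfl⟩ | ⟨a, _, rfl⟩
  · exact hit₁ hd hc a w
  · exact hit₂ hd hc a w

lemma hit_box (hd : 3 ≤ d) (hc : c.Valid d) {e : Finset ℕ} (he : e ∈ c.box Z) (w : ℕ) :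
    ¬ Disjoint e (c.U.erase w) := by
  obtain ⟨w₁, _, rfl⟩ := mem_box.1 he
  apply hit₃ hd hc w₁ w
  intro x hx hne
  exact mem_cell.2 (Or.inr ⟨hne, W_sub_U hx⟩)

lemma hit_cp (hd : 3 ≤ d) {P : Cp} {e : Finset ℕ} (he : e ∈ P.edges)
    {c' : Core} (hc' : c'.Valid d) (h1 : c'.X₁ = P.c.X₁) (h2 : c'.X₂ = P.c.X₂) (w : ℕ) :
    ¬ Disjoint e (c'.U.erase w) := by
  rcases Finset.mem_union.1 he with h3 | h3
  · rcases mem_core.1 h3 with ⟨a, _, rfl⟩ | ⟨a, _, rfl⟩
    · rw [← h1]; exact hit₁ hd hc' a w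
    · rw [← h2]; exact hit₂ hd hc' a w
  · obtain ⟨w₁, _, rfl⟩ := mem_cells.1 h3
    apply hit₃ hd hc' w₁ w
    intro x hx hne
    refine mem_cell.2 (Or.inr ⟨hne, W_sub_U ?_⟩)
    rw [mem_W, ← h1, ← h2]
    exact mem_W.1 hx

lemma not_Ov (hD : D.Valid d) {e : Finset ℕ} (h1 : Disjoint e D.X₁) (h2 : Disjoint e D.X₂)
    (h : ∀ w, ¬ Disjoint e (c.U.erase w)) : ¬ Ov D c := by
  rintro ⟨w, _, w', _, hEq⟩
  apply h w'
  rw [← hEq, Finset.disjoint_left]
  intro x hx hxU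
  rcases hD.U_mem (Finset.mem_of_mem_erase hxU) with h3 | h3
  · exact Finset.disjoint_left.1 h1 hx h3
  · exact Finset.disjoint_left.1 h2 hx h3

lemma good₁_mono {c : Core} {G G' : Finset (Finset ℕ)} (h : G ⊆ G') :
    (good₁ c G).card ≤ (good₁ c G').card := by
  apply Finset.card_le_card
  intro a ha
  rw [mem_good₁] at ha ⊢
  exact ⟨ha.1, h ha.2⟩

lemma good₂_mono {c : Core} {G G' : Finset (Finset ℕ)} (h : G ⊆ G') :
    (good₂ c G).card ≤ (good₂ c G').card := by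
  apply Finset.card_le_card
  intro a ha
  rw [mem_good₂] at ha ⊢
  exact ⟨ha.1, h ha.2⟩

/-! ### The phase in which the opponent attacks -/

/-- Opponent to move; all his edges are edges of the core `c` and cells of balanced boxes. -/
structure PhI (d : ℕ) (D c : Core) (F S O : Finset (Finset ℕ)) : Prop where
  hD : D.Valid d
  hDS : D.core ⊆ S
  hFS : Disjoint F S
  hc : c.Valid d
  hF : F ⊆ c.core ∪ O.biUnion c.box
  hO : ∀ Z ∈ O, ZOk d c Z
  hno : ∀ c' : Core, c'.Valid d → c'.X₁ = c.X₁ → c'.X₂ = c.X₂ → ¬ Ov D c'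
  hbal : ∀ Z ∈ O, (F ∩ c.box Z).card ≤ (S ∩ c.box Z).card

lemma PhI.sub_GS {q : Finset ℕ} (h : F ⊆ c.core ∪ O.biUnion c.box) : F ⊆ GS c q O ∅ := by
  intro x hx
  rcases Finset.mem_union.1 (h hx) with h1 | h1
  · exact mem_GS.2 (Or.inr (Or.inl h1))
  · obtain ⟨Z, hZ, h2⟩ := Finset.mem_biUnion.1 h1
    exact mem_GS.2 (Or.inr (Or.inr (Or.inl ⟨Z, hZ, h2⟩)))

/-- A core of the same columns inside the static family. -/
lemma modeS_intro (hD : D.Valid d) (hDS : D.core ⊆ S) (hFS : Disjoint F S) (hc : c.Valid d)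
    (hF : F ⊆ GS c q O ∅) (hO : ∀ Z ∈ O, ZOk d c Z)
    (hq : ∀ Z, ZOk d c Z → q ∈ c.box Z → Z ∈ O)
    (hno : ∀ c' : Core, c'.Valid d → c'.X₁ = c.X₁ → c'.X₂ = c.X₂ →
      c'.core ⊆ insert q c.core → c' ≠ c → ¬ Ov D c')
    (hbal : ∀ Z ∈ O, (F ∩ c.box Z).card ≤ (S ∩ c.box Z).card) : ModeS d D c F S q O ∅ :=
  ⟨hD, hDS, hFS, hc, hF, hO, hq, by simp, by simp, hno, hbal⟩

/-- The result of a step: the opponent has no copy and the drawing player has a good answer. -/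
def Next (d : ℕ) (F S : Finset (Finset ℕ)) (Q : Finset (Finset ℕ) → Finset (Finset ℕ) → Prop) :
    Prop :=
  ∃ e' : Finset ℕ, e'.card = 22 * d - 3 ∧ e' ∉ F ∧ e' ∉ S ∧ (HasCopy d (insert e' S) ∨
    Q F (insert e' S))

lemma Next.imp {Q Q' : Finset (Finset ℕ) → Finset (Finset ℕ) → Prop} (h : Next d F S Q)
    (hQ : ∀ F S, Q F S → Q' F S) : Next d F S Q' := by
  obtain ⟨e', h1, h2, h3, h4⟩ := h
  exact ⟨e', h1, h2, h3, h4.imp_right (hQ _ _)⟩

def InvA (d : ℕ) (F S : Finset (Finset ℕ)) : Prop :=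
  RaceInv d F S ∨ (∃ D K R Z, AtkN d D F S K R Z) ∨ (∃ D c q O R Z, AtkS d D c F S q O R Z) ∨
    (∃ D c O, PhI d D c F S O)

lemma next_of_modeN (hd : 3 ≤ d) (h : ModeN d D F S K R) : Next d F S (InvA d) := by
  obtain ⟨e', h1, h2, h3, Z, h4⟩ := attack_N hd h
  exact ⟨e', h1, h2, h3, Or.inr (Or.inr (Or.inl ⟨D, K, R, Z, h4⟩))⟩

lemma next_of_modeS (hd : 3 ≤ d) (h : ModeS d D c F S q O R) : Next d F S (InvA d) := by
  obtain ⟨e', h1, h2, h3, Z, h4⟩ := attack_S hd h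
  exact ⟨e', h1, h2, h3, Or.inr (Or.inr (Or.inr (Or.inl ⟨D, c, q, O, R, Z, h4⟩)))⟩

/-- Drawing player to move; one box may be unbalanced by one. -/
lemma next_of_box (hd : 3 ≤ d) (hD : D.Valid d) (hDS : D.core ⊆ S) (hFS : Disjoint F S)
    (hc : c.Valid d) (hF : F ⊆ c.core ∪ O.biUnion c.box) (hO : ∀ Z ∈ O, ZOk d c Z)
    (hno : ∀ c' : Core, c'.Valid d → c'.X₁ = c.X₁ → c'.X₂ = c.X₂ → ¬ Ov D c')
    (hZ : Z ∈ O)
    (hbal : ∀ Z' ∈ O, Z' ≠ Z → (F ∩ c.box Z').card ≤ (S ∩ c.box Z').card)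
    (hbalZ : (F ∩ c.box Z).card ≤ (S ∩ c.box Z).card + 1) : Next d F S (InvA d) := by
  by_cases hun : (F ∩ c.box Z).card ≤ (S ∩ c.box Z).card
  · -- everything is balanced: attack, with `q` a core edge
    obtain ⟨a, ha⟩ : c.A₁.Nonempty := by
      rw [← Finset.card_pos, hc.cardA₁]; omega
    have hq : c.X₁.erase a ∈ c.core := mem_core.2 (Or.inl ⟨a, ha, rfl⟩)
    refine next_of_modeS hd (modeS_intro (q := c.X₁.erase a) hD hDS hFS hc (PhI.sub_GS hF) hO
      ?_ (fun c' h1 h2 h3 _ _ => hno c' h1 h2 h3) ?_)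
    · intro Z' hZ' hqb
      obtain ⟨w, hw, hEq⟩ := mem_box.1 hqb
      rw [← hEq] at hq
      exact absurd hq (cell_not_core hd hc hw)
    · intro Z' hZ'
      by_cases h : Z' = Z
      · rw [h]; exact hun
      · exact hbal Z' hZ' h
  · obtain ⟨e', he'β, he'F, he'S⟩ := reply_box hFS (box_card hd hc (hO Z hZ))
        (show (F ∩ c.box Z).card = (S ∩ c.box Z).card + 1 by omega)
    refine ⟨e', box_elem_card hd hc (hO Z hZ) he'β, he'F, he'S, Or.inr (Or.inr (Or.inr (Or.inr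
      ⟨D, c, O, ⟨hD, hDS.trans (Finset.subset_insert _ _), disj_insert_right hFS he'F, hc, hF, hO,
        hno, ?_⟩⟩)))⟩
    intro Z' hZ'
    by_cases h : Z' = Z
    · rw [h, insert_inter_card_mem he'β he'S]; exact hbalZ
    · exact (hbal Z' hZ' h).trans (Finset.card_le_card
        (Finset.inter_subset_inter_right (Finset.subset_insert _ _)))

lemma stepI (hd : 3 ≤ d) (h : PhI d D c F S O) (e : Finset ℕ) (heF : e ∉ F) (heS : e ∉ S) :
    ¬ HasCopy d (insert e F) ∧ Next d (insert e F) S (InvA d) := by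
  have hFS' := disj_insert_left h.hFS heS
  by_cases hcb : ∃ Z, ZOk d c Z ∧ e ∈ c.box Z
  · obtain ⟨Z, hZ, heb⟩ := hcb
    have hO' : ∀ Z' ∈ insert Z O, ZOk d c Z' := by
      intro Z' hZ'
      rcases Finset.mem_insert.1 hZ' with rfl | h1
      · exact hZ
      · exact h.hO Z' h1
    have hF' : insert e F ⊆ c.core ∪ (insert Z O).biUnion c.box := by
      intro x hx
      rcases Finset.mem_insert.1 hx with rfl | h1
      · exact Finset.mem_union_right _ (Finset.mem_biUnion.2 ⟨Z, Finset.mem_insert_self _ _, heb⟩)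
      · rcases Finset.mem_union.1 (h.hF h1) with h2 | h2
        · exact Finset.mem_union_left _ h2
        · obtain ⟨Z', hZ', h3⟩ := Finset.mem_biUnion.1 h2
          exact Finset.mem_union_right _
            (Finset.mem_biUnion.2 ⟨Z', Finset.mem_insert_of_mem hZ', h3⟩)
    have hbal : ∀ Z' ∈ insert Z O, Z' ≠ Z →
        (insert e F ∩ c.box Z').card ≤ (S ∩ c.box Z').card := by
      intro Z' hZ' hne
      have h1 : e ∉ c.box Z' := fun h2 => hne (box_disjoint h.hc (hO' _ hZ') hZ h2 heb)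
      rw [insert_inter_notMem h1]
      rcases Finset.mem_insert.1 hZ' with h2 | h2
      · exact absurd h2 hne
      · exact h.hbal Z' h2
    have hbalZ : (insert e F ∩ c.box Z).card ≤ (S ∩ c.box Z).card + 1 := by
      refine (insert_inter_card_le _ _ _).trans ?_
      by_cases hZO : Z ∈ O
      · have := h.hbal Z hZO; omega
      · have : F ∩ c.box Z = ∅ := by
          rw [← Finset.disjoint_iff_inter_eq_empty, Finset.disjoint_left]
          intro x hx hxb
          rcases Finset.mem_union.1 (h.hF hx) with h2 | h2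
          · obtain ⟨w, hw, rfl⟩ := mem_box.1 hxb
            exact cell_not_core hd h.hc hw h2
          · obtain ⟨Z', hZ', h3⟩ := Finset.mem_biUnion.1 h2
            rw [box_disjoint h.hc hZ (h.hO _ hZ') hxb h3] at hZO
            exact hZO hZ'
        rw [this]; simp
    refine ⟨?_, next_of_box hd h.hD h.hDS hFS' h.hc hF' hO' h.hno
      (Finset.mem_insert_self Z O) hbal hbalZ⟩
    refine no_copy (G := GS c e (insert Z O) ∅) (E := ∅) (B := (insert Z O).image c.box) hd hFS' ?_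
      (by simp; omega) ?_ ?_
    · rw [Finset.union_empty]; exact PhI.sub_GS hF'
    · intro P hP _
      by_cases h8 : (P.edges ∩ GS c e (insert Z O) ∅).card ≤ 8 * d
      · exact Or.inl h8
      · right
        have := static_S hd h.hc hO' (R := ∅) (q := e) (by simp) (by
          intro Z' hZ' h1
          rw [box_disjoint h.hc hZ' hZ h1 heb]
          exact Finset.mem_insert_self _ _) (by simp) hP (by omega)
        exact Finset.mem_image.2 ⟨P.Z, this.1, this.2.symm⟩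
    · intro β hβ
      obtain ⟨Z', hZ', rfl⟩ := Finset.mem_image.1 hβ
      refine ⟨box_card hd h.hc (hO' Z' hZ'), ?_⟩
      by_cases hZZ : Z' = Z
      · rw [hZZ]; exact hbalZ
      · exact (hbal Z' hZ' hZZ).trans (Nat.le_succ _)
  · push Not at hcb
    have hF' : insert e F ⊆ GS c e O ∅ := by
      intro x hx
      rcases Finset.mem_insert.1 hx with rfl | h1
      · exact mem_GS.2 (Or.inl rfl)
      · exact PhI.sub_GS h.hF h1
    have hbal : ∀ Z' ∈ O, (insert e F ∩ c.box Z').card ≤ (S ∩ c.box Z').card := by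
      intro Z' hZ'
      rw [insert_inter_notMem (hcb Z' (h.hO Z' hZ'))]
      exact h.hbal Z' hZ'
    have hmode : ModeS d D c (insert e F) S e O ∅ :=
      modeS_intro h.hD h.hDS hFS' h.hc hF' h.hO (fun Z' hZ' h1 => absurd h1 (hcb Z' hZ'))
        (fun c' h1 h2 h3 _ _ => h.hno c' h1 h2 h3) hbal
    refine ⟨?_, next_of_modeS hd hmode⟩
    refine no_copy (G := GS c e O ∅) (E := ∅) (B := O.image c.box) hd hFS' ?_
      (by simp; omega) (hmode.SP hd) ?_
    · rw [Finset.union_empty]; exact hF'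
    · intro β hβ
      obtain ⟨Z', hZ', rfl⟩ := Finset.mem_image.1 hβ
      exact ⟨box_card hd h.hc (h.hO Z' hZ'), (hbal Z' hZ').trans (Nat.le_succ _)⟩

/-! ### The kill -/

lemma kill_aligned (hd : 3 ≤ d) {P₀ P : Cp} (hP₀ : P₀.Valid d) (hP : P.Valid d)
    {F₀ : Finset (Finset ℕ)} (hF : F₀ ⊆ P₀.edges) (hFc : F₀.card = 8 * d + 1)
    {c₀ : Finset ℕ} (hc₀ : c₀ ∈ P₀.c.core) (hc₀F : c₀ ∉ F₀)
    (h : 8 * d + 1 ≤ (P.edges ∩ insert q F₀).card)
    (h1 : P.c.X₁ = P₀.c.X₁) (h2 : P.c.X₂ = P₀.c.X₂) : c₀ ∈ P.edges := by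
  have e1 : F₀ ⊆ (P₀.c.core.erase c₀) ∪ (F₀ ∩ P₀.cells) := by
    intro x hx
    rcases Finset.mem_union.1 (hF hx) with h3 | h3
    · refine Finset.mem_union_left _ (Finset.mem_erase.2 ⟨?_, h3⟩)
      rintro rfl; exact hc₀F hx
    · exact Finset.mem_union_right _ (Finset.mem_inter.2 ⟨hx, h3⟩)
  have e2 := Finset.card_le_card e1
  have e3 := Finset.card_union_le (P₀.c.core.erase c₀) (F₀ ∩ P₀.cells)
  rw [Finset.card_erase_of_mem hc₀, core_card hd hP₀.core] at e3
  have e4 : (P.edges ∩ insert q F₀).card ≤ (F₀ ∩ P.edges).card + 1 := by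
    have : P.edges ∩ insert q F₀ ⊆ insert q (F₀ ∩ P.edges) := by
      intro x hx
      rw [Finset.mem_inter, Finset.mem_insert] at hx
      rcases hx.2 with h3 | h3
      · exact Finset.mem_insert.2 (Or.inl h3)
      · exact Finset.mem_insert_of_mem (Finset.mem_inter.2 ⟨h3, hx.1⟩)
    exact (Finset.card_le_card this).trans (Finset.card_insert_le _ _)
  have e5 := Finset.card_sdiff_add_card_inter F₀ P.edges
  obtain ⟨g, hg, hgP⟩ : ∃ g ∈ F₀ ∩ P₀.cells, g ∈ P.edges := by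
    by_contra hcon
    push Not at hcon
    have : F₀ ∩ P₀.cells ⊆ F₀ \ P.edges := fun x hx =>
      Finset.mem_sdiff.2 ⟨(Finset.mem_inter.1 hx).1, hcon x hx⟩
    have := Finset.card_le_card this
    omega
  have hg2 := (Finset.mem_inter.1 hg).2
  rcases Finset.mem_union.1 hgP with h3 | h3
  · exfalso
    obtain ⟨w, hw, rfl⟩ := mem_cells.1 hg2
    rcases mem_core.1 h3 with ⟨a, _, h4⟩ | ⟨a, _, h4⟩
    · apply cell_not_sub₁ hd hP₀.core (hP₀.sub hw) (Z := P₀.Z)
      rw [← h4, h1]; exact Finset.erase_subset _ _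
    · apply cell_not_sub₂ hd hP₀.core (hP₀.sub hw) (Z := P₀.Z)
      rw [← h4, h2]; exact Finset.erase_subset _ _
  · have : P.c = P₀.c := core_eq_of_cell hP₀.core hP.core h1 h2 hP₀.z hP.z
      (cells_sub_box hP₀ hg2) (cells_sub_box hP h3)
    refine Finset.mem_union_left _ ?_
    rw [this]; exact hc₀

lemma sub_GS_of_cp {P₀ : Cp} (hP₀ : P₀.Valid d) {F₀ : Finset (Finset ℕ)} (hF : F₀ ⊆ P₀.edges) :
    insert q F₀ ⊆ GS P₀.c q {P₀.Z} ∅ := by
  intro x hx
  rcases Finset.mem_insert.1 hx with h1 | h1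
  · exact mem_GS.2 (Or.inl h1)
  · rcases Finset.mem_union.1 (hF h1) with h2 | h2
    · exact mem_GS.2 (Or.inr (Or.inl h2))
    · exact mem_GS.2 (Or.inr (Or.inr (Or.inl ⟨P₀.Z, Finset.mem_singleton_self _,
        cells_sub_box hP₀ h2⟩)))

lemma kill_lemma (hd : 3 ≤ d) {P₀ P : Cp} (hP₀ : P₀.Valid d) (hP : P.Valid d)
    {F₀ : Finset (Finset ℕ)} (hF : F₀ ⊆ P₀.edges) (hFc : F₀.card = 8 * d + 1)
    {c₀ : Finset ℕ} (hc₀ : c₀ ∈ P₀.c.core) (hc₀F : c₀ ∉ F₀)
    (h : 8 * d + 1 ≤ (P.edges ∩ insert q F₀).card) : c₀ ∈ P.edges := by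
  have hm := miss_le hd hP h
  have hsub := sub_GS_of_cp (q := q) hP₀ hF
  have hg1 := good₁_card hP (G := insert q F₀) (t := d - 1) (by omega)
  have hg2 := good₂_card hP (G := insert q F₀) (t := d - 1) (by omega)
  have hg3 := good₁_mono (c := P.c) hsub
  have hg4 := good₂_mono (c := P.c) hsub
  rcases columns_eq hd hP₀.core hP.core (q := q) (O := {P₀.Z}) (R := ∅) (by simp)
    (by omega) (by omega) with ⟨h1, h2⟩ | ⟨h1, h2⟩
  · exact kill_aligned hd hP₀ hP hF hFc hc₀ hc₀F h h1 h2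
  · have := kill_aligned hd hP₀ (Cp.swap_valid hP) hF hFc hc₀ hc₀F (q := q)
      (by rw [Cp.swap_edges]; exact h) h2 h1
    rwa [Cp.swap_edges] at this

lemma Ov_swap (h : Ov D c) : Ov D c.swap := by
  obtain ⟨w, hw, w', hw', hEq⟩ := h
  exact ⟨w, hw, w', by rwa [swap_W], by rwa [swap_U]⟩

/-- Opponent to move, after the kill. -/
structure KillSt (d : ℕ) (D : Core) (F S : Finset (Finset ℕ)) (P₀ : Cp) (c₀ e₁ : Finset ℕ) :
    Prop where
  hD : D.Valid d
  hDS : D.core ⊆ S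
  hFS : Disjoint F S
  hP₀ : P₀.Valid d
  hF : F ⊆ P₀.edges
  hFc : F.card = 8 * d + 1
  hc₀ : c₀ ∈ P₀.c.core
  hc₀F : c₀ ∉ F
  hc₀S : c₀ ∈ S
  he₁ : e₁ ∈ F
  hd1 : Disjoint e₁ D.X₁
  hd2 : Disjoint e₁ D.X₂

lemma stepK (hd : 3 ≤ d) {P₀ : Cp} {c₀ e₁ : Finset ℕ} (h : KillSt d D F S P₀ c₀ e₁)
    (e : Finset ℕ) (heS : e ∉ S) :
    ¬ HasCopy d (insert e F) ∧ Next d (insert e F) S (InvA d) := by
  have hFS' := disj_insert_left h.hFS heS
  constructor
  · rintro ⟨P, hP, hPF⟩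
    have h1 := Finset.card_le_card hPF
    have h2 := Finset.card_insert_le e F
    rw [edges_card hd hP] at h1
    have h3 := h.hFc
    omega
  · refine next_of_modeN hd (D := D) (K := insert e F) (R := ∅) ⟨h.hD, h.hDS, hFS',
      by rw [Finset.union_empty], ?_, by simp, by simp, ?_⟩
    · intro P hP hPS
      by_contra hcon
      have := kill_lemma (q := e) hd h.hP₀ hP h.hF h.hFc h.hc₀ h.hc₀F (by omega)
      exact Finset.disjoint_left.1 hPS this h.hc₀S
    · intro c' hc' hsub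
      have hsub2 := hsub.trans (sub_GS_of_cp (q := e) h.hP₀ h.hF)
      rcases columns_eq hd h.hP₀.core hc' (q := e) (O := {P₀.Z}) (R := ∅) (by simp)
        (by rw [good₁_of_core_sub hc' hsub2]; omega)
        (by rw [good₂_of_core_sub hc' hsub2]; omega) with ⟨h1, h2⟩ | ⟨h1, h2⟩
      · exact not_Ov h.hD h.hd1 h.hd2 (fun w => hit_cp hd (h.hF h.he₁) hc' h1 h2 w)
      · intro ho
        exact not_Ov h.hD h.hd1 h.hd2
          (fun w => hit_cp hd (h.hF h.he₁) (swap_valid hc') h2 h1 w) (Ov_swap ho)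

def InvK (d : ℕ) (F S : Finset (Finset ℕ)) : Prop :=
  InvA d F S ∨ ∃ D P₀ c₀ e₁, KillSt d D F S P₀ c₀ e₁

/-! ### After the completion of the own core -/

theorem entry (hd : 3 ≤ d) (hD : D.Valid d) (hDS : D.core ⊆ S) (hFS : Disjoint F S)
    (hFc : F.card = 8 * d + 1) {e₁ : Finset ℕ} (he₁ : e₁ ∈ F) (hd1 : Disjoint e₁ D.X₁)
    (hd2 : Disjoint e₁ D.X₂) : Next d F S (InvK d) := by
  by_cases hcase : ∃ P : Cp, P.Valid d ∧ Disjoint P.edges S ∧ F ⊆ P.edges
  · obtain ⟨P, hP, hPS, hFP⟩ := hcase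
    by_cases hcore : P.c.core ⊆ F
    · -- a core and one cell
      refine Next.imp ?_ (fun _ _ h => Or.inl h)
      have hno : ∀ c' : Core, c'.Valid d → c'.X₁ = P.c.X₁ → c'.X₂ = P.c.X₂ → ¬ Ov D c' :=
        fun c' hc' h1 h2 => not_Ov hD hd1 hd2 (fun w => hit_cp hd (hFP he₁) hc' h1 h2 w)
      have hsub : F ⊆ P.c.core ∪ ({P.Z} : Finset (Finset ℕ)).biUnion P.c.box := by
        intro x hx
        rw [Finset.singleton_biUnion]
        rcases Finset.mem_union.1 (hFP hx) with h1 | h1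
        · exact Finset.mem_union_left _ h1
        · exact Finset.mem_union_right _ (cells_sub_box hP h1)
      have hbalZ : (F ∩ P.c.box P.Z).card ≤ (S ∩ P.c.box P.Z).card + 1 := by
        have h1 : F ∩ P.c.box P.Z ⊆ F \ P.c.core := by
          intro x hx
          rw [Finset.mem_inter] at hx
          refine Finset.mem_sdiff.2 ⟨hx.1, fun h2 => ?_⟩
          obtain ⟨w, hw, rfl⟩ := mem_box.1 hx.2
          exact cell_not_core hd hP.core hw h2
        have h2 := Finset.card_le_card h1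
        rw [Finset.card_sdiff_of_subset hcore, hFc, core_card hd hP.core] at h2
        omega
      exact next_of_box (O := {P.Z}) (Z := P.Z) hd hD hDS hFS hP.core hsub
        (fun Z hZ => by rw [Finset.mem_singleton.1 hZ]; exact hP.z) hno
        (Finset.mem_singleton_self _)
        (fun Z' hZ' hne => absurd (Finset.mem_singleton.1 hZ') hne) hbalZ
    · -- the kill
      obtain ⟨c₀, hc₀, hc₀F⟩ := Finset.not_subset.1 hcore
      have hc₀S : c₀ ∉ S := fun h1 =>
        Finset.disjoint_left.1 hPS (Finset.mem_union_left _ hc₀) h1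
      exact ⟨c₀, core_elem_card hP.core hc₀, hc₀F, hc₀S, Or.inr (Or.inr ⟨D, P, c₀, e₁,
        ⟨hD, hDS.trans (Finset.subset_insert _ _), disj_insert_right hFS hc₀F, hP, hFP, hFc, hc₀,
          hc₀F, Finset.mem_insert_self _ _, he₁, hd1, hd2⟩⟩)⟩
  · push Not at hcase
    refine Next.imp ?_ (fun _ _ h => Or.inl h)
    have hK : ∀ P : Cp, P.Valid d → Disjoint P.edges S → (P.edges ∩ F).card ≤ 8 * d := by
      intro P hP hPS
      by_contra hcon
      apply hcase P hP hPS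
      have h1 : P.edges ∩ F = F := by
        apply Finset.eq_of_subset_of_card_le Finset.inter_subset_right
        omega
      rw [← h1]
      exact Finset.inter_subset_left
    by_cases hov : ∃ c : Core, c.Valid d ∧ c.core ⊆ F ∧ Ov D c
    · obtain ⟨c, hc, hcF, ho⟩ := hov
      have he₁c : e₁ ∉ c.core := fun h1 =>
        not_Ov hD hd1 hd2 (fun w => hit_core hd hc h1 w) ho
      have he₁b : ∀ Z, e₁ ∉ c.box Z := fun Z h1 =>
        not_Ov hD hd1 hd2 (fun w => hit_box hd hc h1 w) ho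
      have hFeq : insert e₁ c.core = F := by
        apply Finset.eq_of_subset_of_card_le
        · intro x hx
          rcases Finset.mem_insert.1 hx with rfl | h1
          · exact he₁
          · exact hcF h1
        · rw [Finset.card_insert_of_notMem he₁c, core_card hd hc, hFc]
      refine next_of_modeS hd (modeS_intro (q := e₁) (O := ∅) hD hDS hFS hc ?_ (by simp)
        (fun Z _ h1 => absurd h1 (he₁b Z)) ?_ (by simp))
      · intro x hx
        rw [← hFeq] at hx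
        rcases Finset.mem_insert.1 hx with h1 | h1
        · exact mem_GS.2 (Or.inl h1)
        · exact mem_GS.2 (Or.inr (Or.inl h1))
      · intro c' hc' h1 h2 hsub hne
        have he₁c' : e₁ ∈ c'.core := by
          by_contra hcon
          apply hne
          apply core_eq_of_sub hd hc hc' h1 h2
          intro x hx
          rcases Finset.mem_insert.1 (hsub hx) with h3 | h3
          · exact absurd hx (by rw [h3]; exact hcon)
          · exact h3
        exact not_Ov hD hd1 hd2 (fun w => hit_core hd hc' he₁c' w)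
    · push Not at hov
      exact next_of_modeN hd (D := D) (K := F) (R := ∅) ⟨hD, hDS, hFS,
        by rw [Finset.union_empty], hK, by simp, by simp, hov⟩

/-! ### The opening -/

lemma choose_mark {X Θ : Finset ℕ} {V : Finset (Finset ℕ)} (hΘ : Θ ⊆ X) (h : V.card < Θ.card) :
    ∃ a ∈ Θ, X.erase a ∉ V := by
  have h1 : (Θ.image (fun a => X.erase a)).card = Θ.card := by
    apply Finset.card_image_of_injOn
    intro a ha b _ hab
    exact erase_inj (hΘ ha) hab
  obtain ⟨e, he, heV⟩ := Finset.exists_mem_notMem_of_card_lt_card (by rw [h1]; exact h :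
    V.card < (Θ.image (fun a => X.erase a)).card)
  obtain ⟨a, ha, rfl⟩ := Finset.mem_image.1 he
  exact ⟨a, ha, heV⟩

/-- Opponent to move in the opening. -/
structure Opn (d : ℕ) (X₁ X₂ B₁ B₂ : Finset ℕ) (F S : Finset (Finset ℕ)) (e₁ : Finset ℕ) :
    Prop where
  card₁ : X₁.card = 22 * d - 2
  card₂ : X₂.card = 22 * d - 2
  cardW : (X₁ ∩ X₂).card = 2 * d - 2
  sub₁ : B₁ ⊆ X₁ \ X₂
  sub₂ : B₂ ⊆ X₂ \ X₁
  cardB₁ : B₁.card ≤ 4 * d
  cardB₂ : B₂.card ≤ 4 * d
  hS₁ : ∀ a ∈ B₁, X₁.erase a ∈ S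
  hS₂ : ∀ a ∈ B₂, X₂.erase a ∈ S
  hFc : F.card = B₁.card + B₂.card
  hSc : S.card ≤ B₁.card + B₂.card + 1
  hFS : Disjoint F S
  he₁ : e₁ ∈ F
  hd1 : Disjoint e₁ X₁
  hd2 : Disjoint e₁ X₂

/-- The whole invariant. -/
def Inv (d : ℕ) (F S : Finset (Finset ℕ)) : Prop :=
  (F = ∅ ∧ S.card ≤ 1) ∨ (∃ X₁ X₂ B₁ B₂ e₁, Opn d X₁ X₂ B₁ B₂ F S e₁) ∨ InvK d F S

/-- Drawing player to move in the opening. -/
lemma open_next (hd : 3 ≤ d) {X₁ X₂ B₁ B₂ : Finset ℕ} {e₁ : Finset ℕ}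
    (card₁ : X₁.card = 22 * d - 2) (card₂ : X₂.card = 22 * d - 2)
    (cardW : (X₁ ∩ X₂).card = 2 * d - 2) (sub₁ : B₁ ⊆ X₁ \ X₂) (sub₂ : B₂ ⊆ X₂ \ X₁)
    (cardB₁ : B₁.card ≤ 4 * d) (cardB₂ : B₂.card ≤ 4 * d)
    (hS₁ : ∀ a ∈ B₁, X₁.erase a ∈ S) (hS₂ : ∀ a ∈ B₂, X₂.erase a ∈ S)
    (hFc : F.card = B₁.card + B₂.card + 1) (hSc : S.card ≤ B₁.card + B₂.card + 1)
    (hFS : Disjoint F S) (he₁ : e₁ ∈ F) (hd1 : Disjoint e₁ X₁) (hd2 : Disjoint e₁ X₂) :
    Next d F S (Inv d) := by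
  have hX₁ : (X₁ \ X₂).card = 20 * d := by
    have := Finset.card_sdiff_add_card_inter X₁ X₂
    omega
  have hX₂ : (X₂ \ X₁).card = 20 * d := by
    have := Finset.card_sdiff_add_card_inter X₂ X₁
    rw [Finset.inter_comm] at this
    omega
  have hV := Finset.card_union_le F S
  by_cases hB₁ : B₁.card < 4 * d
  · obtain ⟨a, ha, haV⟩ := choose_mark (X := X₁) (Θ := X₁ \ X₂) (V := F ∪ S)
      Finset.sdiff_subset (by omega)
    rw [Finset.mem_union, not_or] at haV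
    have haB : a ∉ B₁ := fun h1 => haV.2 (hS₁ a h1)
    have haX := (Finset.mem_sdiff.1 ha).1
    refine ⟨X₁.erase a, by rw [Finset.card_erase_of_mem haX, card₁]; omega, haV.1, haV.2,
      Or.inr (Or.inr (Or.inl ⟨X₁, X₂, insert a B₁, B₂, e₁, ⟨card₁, card₂, cardW, ?_, sub₂, ?_,
        cardB₂, ?_, ?_, ?_, ?_, disj_insert_right hFS haV.1, he₁, hd1, hd2⟩⟩))⟩
    · intro x hx
      rcases Finset.mem_insert.1 hx with rfl | h1
      · exact ha
      · exact sub₁ h1
    · rw [Finset.card_insert_of_notMem haB]; omega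
    · intro x hx
      rcases Finset.mem_insert.1 hx with rfl | h1
      · exact Finset.mem_insert_self _ _
      · exact Finset.mem_insert_of_mem (hS₁ x h1)
    · intro x hx
      exact Finset.mem_insert_of_mem (hS₂ x hx)
    · rw [Finset.card_insert_of_notMem haB]; omega
    · rw [Finset.card_insert_of_notMem haB, Finset.card_insert_of_notMem haV.2]; omega
  · by_cases hB₂ : B₂.card < 4 * d
    · obtain ⟨a, ha, haV⟩ := choose_mark (X := X₂) (Θ := X₂ \ X₁) (V := F ∪ S)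
        Finset.sdiff_subset (by omega)
      rw [Finset.mem_union, not_or] at haV
      have haB : a ∉ B₂ := fun h1 => haV.2 (hS₂ a h1)
      have haX := (Finset.mem_sdiff.1 ha).1
      refine ⟨X₂.erase a, by rw [Finset.card_erase_of_mem haX, card₂]; omega, haV.1, haV.2,
        Or.inr (Or.inr (Or.inl ⟨X₁, X₂, B₁, insert a B₂, e₁, ⟨card₁, card₂, cardW, sub₁, ?_,
          cardB₁, ?_, ?_, ?_, ?_, ?_, disj_insert_right hFS haV.1, he₁, hd1, hd2⟩⟩))⟩
      · intro x hx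
        rcases Finset.mem_insert.1 hx with rfl | h1
        · exact ha
        · exact sub₂ h1
      · rw [Finset.card_insert_of_notMem haB]; omega
      · intro x hx
        exact Finset.mem_insert_of_mem (hS₁ x hx)
      · intro x hx
        rcases Finset.mem_insert.1 hx with rfl | h1
        · exact Finset.mem_insert_self _ _
        · exact Finset.mem_insert_of_mem (hS₂ x h1)
      · rw [Finset.card_insert_of_notMem haB]; omega
      · rw [Finset.card_insert_of_notMem haB, Finset.card_insert_of_notMem haV.2]; omega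
    · -- the core is complete
      have hDv : (Core.mk X₁ X₂ B₁ B₂).Valid d :=
        ⟨card₁, card₂, cardW, sub₁, sub₂, by show B₁.card = _; omega,
          by show B₂.card = _; omega⟩
      refine (entry (D := Core.mk X₁ X₂ B₁ B₂) hd hDv ?_ hFS (by omega) he₁ hd1 hd2).imp
        (fun _ _ h => Or.inr (Or.inr h))
      intro x hx
      rcases mem_core.1 hx with ⟨a, ha, rfl⟩ | ⟨a, ha, rfl⟩
      · exact hS₁ a ha
      · exact hS₂ a ha

lemma small_no_copy (hd : 3 ≤ d) (h : F.card < 9 * d) : ¬ HasCopy d F := by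
  rintro ⟨P, hP, hPF⟩
  have h1 := Finset.card_le_card hPF
  rw [edges_card hd hP] at h1
  omega

/-- Two columns avoiding a given finite set. -/
lemma exists_columns (hd : 3 ≤ d) (V : Finset ℕ) : ∃ X₁ X₂ : Finset ℕ,
    X₁.card = 22 * d - 2 ∧ X₂.card = 22 * d - 2 ∧ (X₁ ∩ X₂).card = 2 * d - 2 ∧
      Disjoint V X₁ ∧ Disjoint V X₂ := by
  obtain ⟨A, hA, hAV⟩ := fresh_set V (20 * d)
  obtain ⟨B, hB, hBV⟩ := fresh_set (V ∪ A) (20 * d)
  obtain ⟨C, hC, hCV⟩ := fresh_set (V ∪ A ∪ B) (2 * d - 2)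
  rw [Finset.disjoint_union_right] at hBV
  rw [Finset.disjoint_union_right, Finset.disjoint_union_right] at hCV
  refine ⟨A ∪ C, B ∪ C, ?_, ?_, ?_, ?_, ?_⟩
  · rw [Finset.card_union_of_disjoint hCV.1.2.symm]; omega
  · rw [Finset.card_union_of_disjoint hCV.2.symm]; omega
  · have : (A ∪ C) ∩ (B ∪ C) = C := by
      rw [← Finset.inter_union_distrib_right, Finset.disjoint_iff_inter_eq_empty.1 hBV.2.symm,
        Finset.empty_union]
    rw [this]; exact hC
  · rw [Finset.disjoint_union_right]; exact ⟨hAV.symm, hCV.1.1.symm⟩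
  · rw [Finset.disjoint_union_right]; exact ⟨hBV.1.symm, hCV.1.1.symm⟩

/-- The main step. -/
theorem main_step (hd : 3 ≤ d) (h : Inv d F S) (e : Finset ℕ) (heF : e ∉ F) (heS : e ∉ S) :
    ¬ HasCopy d (insert e F) ∧ Next d (insert e F) S (Inv d) := by
  rcases h with ⟨rfl, hS⟩ | ⟨X₁, X₂, B₁, B₂, e₁, h⟩ | h
  · refine ⟨small_no_copy hd (by simp; omega), ?_⟩
    obtain ⟨X₁, X₂, h1, h2, h3, h4, h5⟩ := exists_columns hd e
    refine open_next (B₁ := ∅) (B₂ := ∅) (e₁ := e) hd h1 h2 h3 (by simp) (by simp) (by simp)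
      (by simp) (by simp) (by simp) (by simp) (by simpa using hS) ?_ (by simp) h4 h5
    rw [Finset.disjoint_left]
    intro x hx hx'
    rcases Finset.mem_insert.1 hx with rfl | h6
    · exact heS hx'
    · simp at h6
  · have h1 : (insert e F).card = F.card + 1 := Finset.card_insert_of_notMem heF
    have hc1 := h.cardB₁
    have hc2 := h.cardB₂
    have hc3 := h.hFc
    refine ⟨small_no_copy hd (by omega), ?_⟩
    exact open_next hd h.card₁ h.card₂ h.cardW h.sub₁ h.sub₂ h.cardB₁ h.cardB₂ h.hS₁ h.hS₂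
      (by omega) h.hSc (disj_insert_left h.hFS heS) (Finset.mem_insert_of_mem h.he₁) h.hd1 h.hd2
  · rcases h with (h | ⟨D, K, R, Z, h⟩ | ⟨D, c, q, O, R, Z, h⟩ | ⟨D, c, O, h⟩) |
      ⟨D, P₀, c₀, e₁, h⟩
    · obtain ⟨h1, e', h2, h3, h4, h5⟩ := race_step hd h e heF heS
      exact ⟨h1, e', h2, h3, h4, h5.imp_right (fun h6 => Or.inr (Or.inr (Or.inl (Or.inl h6))))⟩
    · obtain ⟨h1, e', h2, h3, h4, h5⟩ := stepN hd h e heF heS
      refine ⟨h1, e', h2, h3, h4, h5.imp_right ?_⟩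
      rintro (h6 | h6)
      · exact Or.inr (Or.inr (Or.inl (Or.inl h6)))
      · exact Or.inr (Or.inr (Or.inl (Or.inr (Or.inl h6))))
    · obtain ⟨h1, e', h2, h3, h4, h5⟩ := stepS hd h e heF heS
      refine ⟨h1, e', h2, h3, h4, h5.imp_right ?_⟩
      rintro (h6 | h6)
      · exact Or.inr (Or.inr (Or.inl (Or.inl h6)))
      · exact Or.inr (Or.inr (Or.inl (Or.inr (Or.inr (Or.inl h6)))))
    · obtain ⟨h1, h2⟩ := stepI hd h e heF heS
      exact ⟨h1, h2.imp (fun _ _ h6 => Or.inr (Or.inr (Or.inl h6)))⟩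
    · obtain ⟨h1, h2⟩ := stepK hd h e heS
      exact ⟨h1, h2.imp (fun _ _ h6 => Or.inr (Or.inr (Or.inl h6)))⟩

end Run7.h137.RG
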