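import Pool.Agent.Run7.h137.RGPlay
import Pool.Agent.Run7.h137.RGOpen
import Pool.Agent.Run7.h137.RGHyper

set_option autoImplicit false

/-!
Both players can draw the strong Ramsey game of the constructed hypergraph.
-/

namespace Run7.h137.RG

lemma exists_edge (k : ℕ) (B : Finset (Finset ℕ)) (hk : 0 < k) :
    ∃ e : Finset ℕ, e.card = k ∧ e ∉ B := by
  obtain ⟨Z, hZ, hZB⟩ := fresh_set (B.biUnion id) k
  refine ⟨Z, hZ, fun h => ?_⟩
  obtain ⟨z, hz⟩ : Z.Nonempty := by rw [← Finset.card_pos, hZ]; exact hk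
  exact Finset.disjoint_left.1 hZB hz (Finset.mem_biUnion.2 ⟨Z, h, hz⟩)

theorem draw_play {d : ℕ} (hd : 3 ≤ d) (c : ℕ) (hc : c = 0 ∨ c = 1)
    (s : List (Finset ℕ) → Finset ℕ) :
    ∃ m : ℕ → Finset ℕ,
      (∀ i, Even (i + c) → m i = s (List.ofFn (fun j : Fin i => m j))) ∧
      (∀ i, ¬ Even (i + c) → (m i).card = 22 * d - 3 ∧ ∀ j < i, m j ≠ m i) ∧
      ∀ N, Even (N + c) →
        (∀ i ≤ N, Even (i + c) → (m i).card = 22 * d - 3 ∧ ∀ j < i, m j ≠ m i) →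
        HasCopy d (oppE m c (N + 1)) → HasCopy d (ownE m c N) := by
  refine draw_abstract (HasCopy d) (Inv d) (fun S S' h h' => h'.mono h) ?_
    (fun B => exists_edge _ B (by omega)) c ?_ s
  · intro F S hI e _ heF heS
    obtain ⟨h1, e', h2, h3, h4, h5⟩ := main_step hd hI e heF heS
    exact ⟨h1, e', h2, h3, h4, h5⟩
  · rcases hc with rfl | rfl
    · exact Or.inl ⟨rfl, Or.inl ⟨rfl, by simp⟩⟩
    · right
      refine ⟨rfl, ?_⟩
      obtain ⟨e, he, _⟩ := exists_edge (22 * d - 3) ∅ (by omega)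
      exact ⟨e, he, by simp, by simp, Or.inr (Or.inl ⟨rfl, by simp⟩)⟩

end Run7.h137.RG
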