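import Mathlib

set_option autoImplicit false

/-!
Abstract form of a drawing argument in a strong game: from a preserved invariant we build, against
every strategy of the opponent, a play that the opponent does not win.
-/

namespace Run7.h137.RG

/-- The play in which the opponent (moving at the times `i` with `i + c` even) uses the strategy `s`
and the drawing player answers with `t` applied to the two sets of claimed edges. -/
noncomputable def play (s : List (Finset ℕ) → Finset ℕ)
    (t : Finset (Finset ℕ) → Finset (Finset ℕ) → Finset ℕ) (c : ℕ) (i : ℕ) : Finset ℕ :=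
  if Even (i + c) then s (List.ofFn (fun j : Fin i => play s t c j))
  else t ((Finset.univ.filter (fun j : Fin i => Even ((j : ℕ) + c))).image
        (fun j : Fin i => play s t c j))
      ((Finset.univ.filter (fun j : Fin i => ¬ Even ((j : ℕ) + c))).image
        (fun j : Fin i => play s t c j))
termination_by i
decreasing_by all_goals exact j.2

/-- The edges claimed before time `i` at times of the parity of the opponent. -/
def oppE (m : ℕ → Finset ℕ) (c i : ℕ) : Finset (Finset ℕ) :=
  ((Finset.range i).filter (fun j => Even (j + c))).image m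

/-- The edges claimed before time `i` by the drawing player. -/
def ownE (m : ℕ → Finset ℕ) (c i : ℕ) : Finset (Finset ℕ) :=
  ((Finset.range i).filter (fun j => ¬ Even (j + c))).image m

lemma mem_oppE {m : ℕ → Finset ℕ} {c i : ℕ} {e : Finset ℕ} :
    e ∈ oppE m c i ↔ ∃ j, j < i ∧ Even (j + c) ∧ m j = e := by
  simp [oppE, and_assoc]

lemma mem_ownE {m : ℕ → Finset ℕ} {c i : ℕ} {e : Finset ℕ} :
    e ∈ ownE m c i ↔ ∃ j, j < i ∧ ¬ Even (j + c) ∧ m j = e := by
  simp [ownE, and_assoc]

lemma play_even (s : List (Finset ℕ) → Finset ℕ)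
    (t : Finset (Finset ℕ) → Finset (Finset ℕ) → Finset ℕ) (c : ℕ) (i : ℕ) (h : Even (i + c)) :
    play s t c i = s (List.ofFn (fun j : Fin i => play s t c j)) := by
  rw [play, if_pos h]

lemma play_odd (s : List (Finset ℕ) → Finset ℕ)
    (t : Finset (Finset ℕ) → Finset (Finset ℕ) → Finset ℕ) (c : ℕ) (i : ℕ) (h : ¬ Even (i + c)) :
    play s t c i = t (oppE (play s t c) c i) (ownE (play s t c) c i) := by
  rw [play, if_neg h]
  congr 1
  · ext e
    simp only [Finset.mem_image, Finset.mem_filter, Finset.mem_univ, true_and, mem_oppE]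
    constructor
    · rintro ⟨j, hj, rfl⟩
      exact ⟨j, j.2, hj, rfl⟩
    · rintro ⟨j, hj, hj2, rfl⟩
      exact ⟨⟨j, hj⟩, hj2, rfl⟩
  · ext e
    simp only [Finset.mem_image, Finset.mem_filter, Finset.mem_univ, true_and, mem_ownE]
    constructor
    · rintro ⟨j, hj, rfl⟩
      exact ⟨j, j.2, hj, rfl⟩
    · rintro ⟨j, hj, hj2, rfl⟩
      exact ⟨⟨j, hj⟩, hj2, rfl⟩

lemma oppE_succ_even (m : ℕ → Finset ℕ) (c i : ℕ) (h : Even (i + c)) :
    oppE m c (i + 1) = insert (m i) (oppE m c i) := by
  unfold oppE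
  rw [Finset.range_add_one, Finset.filter_insert, if_pos h, Finset.image_insert]

lemma oppE_succ_odd (m : ℕ → Finset ℕ) (c i : ℕ) (h : ¬ Even (i + c)) :
    oppE m c (i + 1) = oppE m c i := by
  unfold oppE
  rw [Finset.range_add_one, Finset.filter_insert, if_neg h]

lemma ownE_succ_even (m : ℕ → Finset ℕ) (c i : ℕ) (h : Even (i + c)) :
    ownE m c (i + 1) = ownE m c i := by
  unfold ownE
  rw [Finset.range_add_one, Finset.filter_insert, if_neg (not_not.mpr h)]

lemma ownE_succ_odd (m : ℕ → Finset ℕ) (c i : ℕ) (h : ¬ Even (i + c)) :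
    ownE m c (i + 1) = insert (m i) (ownE m c i) := by
  unfold ownE
  rw [Finset.range_add_one, Finset.filter_insert, if_pos h, Finset.image_insert]

section
variable {k : ℕ} (HC : Finset (Finset ℕ) → Prop)
  (Inv : Finset (Finset ℕ) → Finset (Finset ℕ) → Prop)

/-- A good answer of the drawing player in the position `F` (opponent), `S` (own edges). -/
def GoodAns (k : ℕ) (HC : Finset (Finset ℕ) → Prop)
    (Inv : Finset (Finset ℕ) → Finset (Finset ℕ) → Prop)
    (F S : Finset (Finset ℕ)) (e' : Finset ℕ) : Prop :=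
  e'.card = k ∧ e' ∉ F ∧ e' ∉ S ∧ (HC (insert e' S) ∨ Inv F (insert e' S))

theorem draw_abstract
    (mono : ∀ S S' : Finset (Finset ℕ), S ⊆ S' → HC S → HC S')
    (step : ∀ F S, Inv F S → ∀ e : Finset ℕ, e.card = k → e ∉ F → e ∉ S →
      ¬ HC (insert e F) ∧ ∃ e', GoodAns k HC Inv (insert e F) S e')
    (fresh : ∀ B : Finset (Finset ℕ), ∃ e : Finset ℕ, e.card = k ∧ e ∉ B)
    (c : ℕ) (hc : (c = 0 ∧ Inv ∅ ∅) ∨ (c = 1 ∧ ∃ e', GoodAns k HC Inv ∅ ∅ e'))
    (s : List (Finset ℕ) → Finset ℕ) :
    ∃ m : ℕ → Finset ℕ,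
      (∀ i, Even (i + c) → m i = s (List.ofFn (fun j : Fin i => m j))) ∧
      (∀ i, ¬ Even (i + c) → (m i).card = k ∧ ∀ j < i, m j ≠ m i) ∧
      ∀ N, Even (N + c) →
        (∀ i ≤ N, Even (i + c) → (m i).card = k ∧ ∀ j < i, m j ≠ m i) →
        HC (oppE m c (N + 1)) → HC (ownE m c N) := by
  classical
  have key : ∀ F S : Finset (Finset ℕ), ∃ e' : Finset ℕ, e'.card = k ∧ e' ∉ F ∧ e' ∉ S ∧
      ((∃ e'', GoodAns k HC Inv F S e'') → GoodAns k HC Inv F S e') := by
    intro F S
    by_cases h : ∃ e'', GoodAns k HC Inv F S e''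
    · obtain ⟨e', he'⟩ := h
      exact ⟨e', he'.1, he'.2.1, he'.2.2.1, fun _ => he'⟩
    · obtain ⟨e', he1, he2⟩ := fresh (F ∪ S)
      rw [Finset.mem_union, not_or] at he2
      exact ⟨e', he1, he2.1, he2.2, fun h' => absurd h' h⟩
  choose t ht1 ht2 ht3 ht4 using key
  set m := play s t c with hm
  have hodd : ∀ i, ¬ Even (i + c) → m i = t (oppE m c i) (ownE m c i) :=
    fun i hi => play_odd s t c i hi
  have heven : ∀ i, Even (i + c) → m i = s (List.ofFn (fun j : Fin i => m j)) :=
    fun i hi => play_even s t c i hi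
  have hlegal : ∀ i, ¬ Even (i + c) → (m i).card = k ∧ ∀ j < i, m j ≠ m i := by
    intro i hi
    refine ⟨?_, ?_⟩
    · rw [hodd i hi]; exact ht1 _ _
    · intro j hj hEq
      by_cases hj2 : Even (j + c)
      · apply ht2 (oppE m c i) (ownE m c i)
        rw [← hodd i hi, mem_oppE]
        exact ⟨j, hj, hj2, hEq⟩
      · apply ht3 (oppE m c i) (ownE m c i)
        rw [← hodd i hi, mem_ownE]
        exact ⟨j, hj, hj2, hEq⟩
  -- the invariant at times `2 n + c`
  have hinv : ∀ n : ℕ,
      (∀ j < 2 * n + c, Even (j + c) → (m j).card = k ∧ ∀ l < j, m l ≠ m j) →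
      ¬ HC (ownE m c (2 * n + c)) → Inv (oppE m c (2 * n + c)) (ownE m c (2 * n + c)) := by
    intro n
    induction n with
    | zero =>
      intro _ hn
      rcases hc with ⟨rfl, h0⟩ | ⟨rfl, h1⟩
      · simpa [oppE, ownE] using h0
      · have hne : ¬ Even (0 + 1) := by decide
        have h2 : oppE m 1 (2 * 0 + 1) = ∅ := by
          rw [show 2 * 0 + 1 = 0 + 1 from rfl, oppE_succ_odd _ _ _ hne]
          simp [oppE]
        have h3 : ownE m 1 (2 * 0 + 1) = insert (m 0) ∅ := by
          rw [show 2 * 0 + 1 = 0 + 1 from rfl, ownE_succ_odd _ _ _ hne]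
          simp [ownE]
        have h4 : m 0 = t ∅ ∅ := by
          rw [hodd 0 hne]
          simp [oppE, ownE]
        have h5 := ht4 ∅ ∅ h1
        rw [h3] at hn
        rw [h2, h3]
        rw [h4] at hn ⊢
        rcases h5.2.2.2 with h6 | h6
        · exact absurd h6 hn
        · exact h6
    | succ n ih =>
      intro hl hn
      have hev : Even (2 * n + c + c) := ⟨n + c, by ring⟩
      have hod : ¬ Even (2 * n + c + 1 + c) := by
        rw [Nat.not_even_iff_odd]; exact ⟨n + c, by ring⟩
      have e1 : 2 * (n + 1) + c = 2 * n + c + 1 + 1 := by ring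
      have hown : ownE m c (2 * (n + 1) + c)
          = insert (m (2 * n + c + 1)) (ownE m c (2 * n + c)) := by
        rw [e1, ownE_succ_odd _ _ _ hod, ownE_succ_even _ _ _ hev]
      have hopp : oppE m c (2 * (n + 1) + c)
          = insert (m (2 * n + c)) (oppE m c (2 * n + c)) := by
        rw [e1, oppE_succ_odd _ _ _ hod, oppE_succ_even _ _ _ hev]
      have hn' : ¬ HC (ownE m c (2 * n + c)) := fun h => hn (mono _ _ (by
        rw [hown]; exact Finset.subset_insert _ _) h)
      have hI := ih (fun j hj => hl j (by omega)) hn'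
      have hmv := hl (2 * n + c) (by omega) hev
      have hs := step _ _ hI (m (2 * n + c)) hmv.1
        (by
          rw [mem_oppE]; rintro ⟨j, hj, _, hj3⟩
          exact hmv.2 j hj hj3)
        (by
          rw [mem_ownE]; rintro ⟨j, hj, _, hj3⟩
          exact hmv.2 j hj hj3)
      have ha := ht4 _ _ hs.2
      have hmm : m (2 * n + c + 1) = t (insert (m (2 * n + c)) (oppE m c (2 * n + c)))
          (ownE m c (2 * n + c)) := by
        rw [hodd _ hod, oppE_succ_even _ _ _ hev, ownE_succ_even _ _ _ hev]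
      rw [hown, hmm] at hn
      rw [hopp, hown, hmm]
      rcases ha.2.2.2 with h6 | h6
      · exact absurd h6 hn
      · exact h6
  refine ⟨m, heven, hlegal, ?_⟩
  intro N hN hNl hHC
  by_contra hcon
  have hcN : c ≤ N := by
    rcases hc with ⟨rfl, _⟩ | ⟨rfl, _⟩
    · omega
    · rcases Nat.eq_zero_or_pos N with h | h
      · subst h; exact absurd hN (by decide)
      · exact h
  obtain ⟨n, hn⟩ : ∃ n, N = 2 * n + c := by
    obtain ⟨a, ha⟩ := hN
    exact ⟨a - c, by omega⟩
  have hI := hinv n (fun j hj hj2 => hNl j (by omega) hj2) (by rw [← hn]; exact hcon)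
  rw [← hn] at hI
  have hmv := hNl N le_rfl hN
  have hs := step _ _ hI (m N) hmv.1
        (by
          rw [mem_oppE]; rintro ⟨j, hj, _, hj3⟩
          exact hmv.2 j hj hj3)
        (by
          rw [mem_ownE]; rintro ⟨j, hj, _, hj3⟩
          exact hmv.2 j hj hj3)
  apply hs.1
  rw [← oppE_succ_even _ _ _ hN]
  exact hHC

end

end Run7.h137.RG
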