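import Pool.Agent.Run7.h137.RGStatic

set_option autoImplicit false

/-!
General lemmas for the game phase and the race.
-/

namespace Run7.h137.RG

variable {d : ℕ} {D : Core} {F S G E : Finset (Finset ℕ)} {B : Finset (Finset (Finset ℕ))}
  {Z : Finset ℕ}

lemma fresh_set (V : Finset ℕ) (n : ℕ) : ∃ Z : Finset ℕ, Z.card = n ∧ Disjoint Z V := by
  refine ⟨(Finset.range n).image (fun i => i + (V.sup id + 1)), ?_, ?_⟩
  · rw [Finset.card_image_of_injective]
    · simp
    · intro a b hab
      simpa using hab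
  · rw [Finset.disjoint_left]
    intro x hx hxV
    obtain ⟨i, _, rfl⟩ := Finset.mem_image.1 hx
    have : i + (V.sup id + 1) ≤ V.sup id := Finset.le_sup (f := id) hxV
    omega

/-- The opponent has no copy. -/
lemma no_copy (hd : 3 ≤ d) (hFS : Disjoint F S) (hF : F ⊆ G ∪ E) (hE : E.card + 1 ≤ d)
    (hSP : ∀ P : Cp, P.Valid d → Disjoint P.edges S →
      (P.edges ∩ G).card ≤ 8 * d ∨ P.box ∈ B)
    (hB : ∀ β ∈ B, β.card = 2 * d - 2 ∧ (F ∩ β).card ≤ (S ∩ β).card + 1) :
    ¬ HasCopy d F := by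
  rintro ⟨P, hP, hPF⟩
  rcases hSP P hP (Finset.disjoint_of_subset_left hPF hFS) with h1 | h1
  · have h2 : P.edges ⊆ (P.edges ∩ G) ∪ E := by
      intro e he
      rcases Finset.mem_union.1 (hF (hPF he)) with h3 | h3
      · exact Finset.mem_union_left _ (Finset.mem_inter.2 ⟨he, h3⟩)
      · exact Finset.mem_union_right _ h3
    have h3 := Finset.card_le_card h2
    have h4 := Finset.card_union_le (P.edges ∩ G) E
    rw [edges_card hd hP] at h3
    omega
  · obtain ⟨h2, h3⟩ := hB _ h1
    have h4 : P.cells ⊆ F ∩ P.box := fun e he =>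
      Finset.mem_inter.2 ⟨hPF (Finset.mem_union_right _ he), cells_sub_box hP he⟩
    have h5 := Finset.card_le_card h4
    rw [cells_card hP] at h5
    have h6 : Disjoint (F ∩ P.box) (S ∩ P.box) :=
      Finset.disjoint_of_subset_left Finset.inter_subset_left
        (Finset.disjoint_of_subset_right Finset.inter_subset_left hFS)
    have h7 := Finset.card_union_of_disjoint h6
    have h8 : (F ∩ P.box) ∪ (S ∩ P.box) ⊆ P.box :=
      Finset.union_subset Finset.inter_subset_right Finset.inter_subset_right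
    have h9 := Finset.card_le_card h8
    omega

/-- An unbalanced box has a free cell. -/
lemma reply_box (hFS : Disjoint F S) {β : Finset (Finset ℕ)} (hβ : β.card = 2 * d - 2)
    (h : (F ∩ β).card = (S ∩ β).card + 1) : ∃ e ∈ β, e ∉ F ∧ e ∉ S := by
  by_contra hcon
  push Not at hcon
  have h1 : β ⊆ (F ∩ β) ∪ (S ∩ β) := by
    intro e he
    by_cases heF : e ∈ F
    · exact Finset.mem_union_left _ (Finset.mem_inter.2 ⟨heF, he⟩)
    · exact Finset.mem_union_right _ (Finset.mem_inter.2 ⟨hcon e he heF, he⟩)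
  have h2 : (F ∩ β) ∪ (S ∩ β) = β :=
    Finset.Subset.antisymm
      (Finset.union_subset Finset.inter_subset_right Finset.inter_subset_right) h1
  have h6 : Disjoint (F ∩ β) (S ∩ β) :=
    Finset.disjoint_of_subset_left Finset.inter_subset_left
      (Finset.disjoint_of_subset_right Finset.inter_subset_left hFS)
  have h7 := Finset.card_union_of_disjoint h6
  rw [h2, hβ, h] at h7
  omega

/-- A box in which few cells are taken has a free cell. -/
lemma free_cell {β : Finset (Finset ℕ)} {t : ℕ} (hβ : t < β.card)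
    (h : (F ∩ β).card + (S ∩ β).card ≤ t) : ∃ e ∈ β, e ∉ F ∧ e ∉ S := by
  by_contra hcon
  push Not at hcon
  have h1 : β ⊆ (F ∩ β) ∪ (S ∩ β) := by
    intro e he
    by_cases heF : e ∈ F
    · exact Finset.mem_union_left _ (Finset.mem_inter.2 ⟨heF, he⟩)
    · exact Finset.mem_union_right _ (Finset.mem_inter.2 ⟨hcon e he heF, he⟩)
  have h2 := Finset.card_le_card h1
  have h3 := Finset.card_union_le (F ∩ β) (S ∩ β)
  omega

/-- A core with `d` cells in a box gives a copy. -/
lemma copy_of_box (hD : D.Valid d) (hZ : ZOk d D Z) (hDS : D.core ⊆ S)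
    (h : d ≤ (S ∩ D.box Z).card) : HasCopy d S := by
  classical
  have h1 : (S ∩ D.box Z) ⊆ (D.W.filter (fun w => D.cell Z w ∈ S)).image (fun w => D.cell Z w) := by
    intro e he
    rw [Finset.mem_inter] at he
    obtain ⟨w, hw, rfl⟩ := mem_box.1 he.2
    exact Finset.mem_image.2 ⟨w, Finset.mem_filter.2 ⟨hw, he.1⟩, rfl⟩
  have h2 := (Finset.card_le_card h1).trans Finset.card_image_le
  obtain ⟨T, hT, hTc⟩ := Finset.exists_subset_card_eq (h.trans h2)
  refine ⟨⟨D, Z, T⟩, ⟨hD, hZ, hT.trans (Finset.filter_subset _ _), hTc⟩, ?_⟩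
  intro e he
  rcases Finset.mem_union.1 he with h3 | h3
  · exact hDS h3
  · obtain ⟨w, hw, rfl⟩ := mem_cells.1 h3
    exact (Finset.mem_filter.1 (hT hw)).2

lemma insert_inter_card_le (e : Finset ℕ) (F β : Finset (Finset ℕ)) :
    (insert e F ∩ β).card ≤ (F ∩ β).card + 1 := by
  by_cases h : e ∈ β
  · rw [Finset.insert_inter_of_mem h]
    exact Finset.card_insert_le _ _
  · rw [Finset.insert_inter_of_notMem h]
    omega

lemma insert_inter_notMem {e : Finset ℕ} {F β : Finset (Finset ℕ)} (h : e ∉ β) :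
    insert e F ∩ β = F ∩ β := Finset.insert_inter_of_notMem h

lemma insert_inter_card_mem {e : Finset ℕ} {F β : Finset (Finset ℕ)} (h : e ∈ β) (hF : e ∉ F) :
    (insert e F ∩ β).card = (F ∩ β).card + 1 := by
  rw [Finset.insert_inter_of_mem h, Finset.card_insert_of_notMem]
  exact fun h' => hF (Finset.mem_inter.1 h').1

lemma disj_insert {e e' : Finset ℕ} (hFS : Disjoint F S) (heS : e ∉ S) (he'F : e' ∉ insert e F) :
    Disjoint (insert e F) (insert e' S) := by
  rw [Finset.disjoint_left]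
  intro x hx hx'
  rcases Finset.mem_insert.1 hx' with rfl | h2
  · exact he'F hx
  · rcases Finset.mem_insert.1 hx with rfl | h3
    · exact heS h2
    · exact Finset.disjoint_left.1 hFS h3 h2

lemma disj_insert_left {e : Finset ℕ} (hFS : Disjoint F S) (heS : e ∉ S) :
    Disjoint (insert e F) S := by
  rw [Finset.disjoint_left]
  intro x hx hx'
  rcases Finset.mem_insert.1 hx with rfl | h3
  · exact heS hx'
  · exact Finset.disjoint_left.1 hFS h3 hx'

/-- The race: the drawing player is at least two cells ahead in a box of his completed core. -/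
structure Race (d : ℕ) (D : Core) (F S G : Finset (Finset ℕ)) (B : Finset (Finset (Finset ℕ)))
    (Z : Finset ℕ) (E : Finset (Finset ℕ)) : Prop where
  hD : D.Valid d
  hZ : ZOk d D Z
  hDS : D.core ⊆ S
  hFS : Disjoint F S
  hF : F ⊆ G ∪ E
  hE : E.card + 1 ≤ (S ∩ D.box Z).card
  h2 : 2 ≤ (S ∩ D.box Z).card
  hlt : (S ∩ D.box Z).card < d
  hFb : (F ∩ D.box Z).card + 2 ≤ (S ∩ D.box Z).card
  hSP : ∀ P : Cp, P.Valid d → Disjoint P.edges S → (P.edges ∩ G).card ≤ 8 * d ∨ P.box ∈ B
  hB : ∀ β ∈ B, β.card = 2 * d - 2 ∧ β ⊆ G ∧ (∀ e ∈ β, e.card = 22 * d - 3) ∧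
    (F ∩ β).card ≤ (S ∩ β).card ∧ Disjoint β (D.box Z)
  hBd : ∀ β ∈ B, ∀ β' ∈ B, β ≠ β' → Disjoint β β'

/-- Some race is running. -/
def RaceInv (d : ℕ) (F S : Finset (Finset ℕ)) : Prop :=
  ∃ (D : Core) (G : Finset (Finset ℕ)) (B : Finset (Finset (Finset ℕ))) (Z : Finset ℕ)
    (E : Finset (Finset ℕ)), Race d D F S G B Z E

/-- The next move of the race in the own box. -/
lemma race_next (hd : 3 ≤ d) (hD : D.Valid d) (hZ : ZOk d D Z) (hDS : D.core ⊆ S)
    (hFS : Disjoint F S) (hF : F ⊆ G ∪ E) (hE : E.card ≤ (S ∩ D.box Z).card)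
    (h1 : 1 ≤ (S ∩ D.box Z).card)
    (hlt : (S ∩ D.box Z).card < d)
    (hFb : (F ∩ D.box Z).card + 1 ≤ (S ∩ D.box Z).card)
    (hSP : ∀ P : Cp, P.Valid d → Disjoint P.edges S →
      (P.edges ∩ G).card ≤ 8 * d ∨ P.box ∈ B)
    (hB : ∀ β ∈ B, β.card = 2 * d - 2 ∧ β ⊆ G ∧ (∀ e ∈ β, e.card = 22 * d - 3) ∧
      (F ∩ β).card ≤ (S ∩ β).card ∧ Disjoint β (D.box Z))
    (hBd : ∀ β ∈ B, ∀ β' ∈ B, β ≠ β' → Disjoint β β') :
    ∃ e' : Finset ℕ, e'.card = 22 * d - 3 ∧ e' ∉ F ∧ e' ∉ S ∧
      (HasCopy d (insert e' S) ∨ RaceInv d F (insert e' S)) := by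
  obtain ⟨e', he', he'F, he'S⟩ := free_cell (F := F) (S := S) (β := D.box Z) (t := 2 * d - 3)
    (by rw [box_card hd hD hZ]; omega) (by omega)
  have hcard := insert_inter_card_mem he' he'S
  refine ⟨e', box_elem_card hd hD hZ he', he'F, he'S, ?_⟩
  by_cases hjd : (S ∩ D.box Z).card + 1 = d
  · left
    exact copy_of_box hD hZ (hDS.trans (Finset.subset_insert _ _)) (by omega)
  · right
    refine ⟨D, G, B, Z, E, ⟨hD, hZ, hDS.trans (Finset.subset_insert _ _), ?_, hF, by omega,
      by omega, by omega, by omega, ?_, ?_, hBd⟩⟩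
    · rw [Finset.disjoint_left]
      intro x hx hx'
      rcases Finset.mem_insert.1 hx' with rfl | h3
      · exact he'F hx
      · exact Finset.disjoint_left.1 hFS hx h3
    · intro P hP hPS
      exact hSP P hP (Finset.disjoint_of_subset_right (Finset.subset_insert _ _) hPS)
    · intro β hβ
      obtain ⟨b1, b2, b3, b4, b5⟩ := hB β hβ
      refine ⟨b1, b2, b3, b4.trans (Finset.card_le_card ?_), b5⟩
      exact Finset.inter_subset_inter_right (Finset.subset_insert _ _)

theorem race_step (hd : 3 ≤ d) (h : RaceInv d F S) (e : Finset ℕ) (heF : e ∉ F) (heS : e ∉ S) :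
    ¬ HasCopy d (insert e F) ∧ ∃ e' : Finset ℕ, e'.card = 22 * d - 3 ∧ e' ∉ insert e F ∧ e' ∉ S ∧
      (HasCopy d (insert e' S) ∨ RaceInv d (insert e F) (insert e' S)) := by
  obtain ⟨D, G, B, Z, E, hR⟩ := h
  have hF' : insert e F ⊆ G ∪ insert e E := by
    intro x hx
    rcases Finset.mem_insert.1 hx with rfl | h1
    · exact Finset.mem_union_right _ (Finset.mem_insert_self _ _)
    · rcases Finset.mem_union.1 (hR.hF h1) with h2 | h2
      · exact Finset.mem_union_left _ h2
      · exact Finset.mem_union_right _ (Finset.mem_insert_of_mem h2)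
  have hEc : (insert e E).card ≤ E.card + 1 := Finset.card_insert_le _ _
  have h1 := hR.hE
  have h2 := hR.hlt
  have hFS' := disj_insert_left hR.hFS heS
  refine ⟨no_copy (G := G) (E := insert e E) (B := B) hd hFS' hF' (by omega) hR.hSP ?_, ?_⟩
  · intro β hβ
    obtain ⟨b1, b2, b3, b4, b5⟩ := hR.hB β hβ
    exact ⟨b1, (insert_inter_card_le e F β).trans (by omega)⟩
  · by_cases hcase : ∃ β ∈ B, e ∈ β ∧ (S ∩ β).card < (insert e F ∩ β).card
    · obtain ⟨β, hβ, heβ, hlt⟩ := hcase
      obtain ⟨b1, b2, b3, b4, b5⟩ := hR.hB β hβ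
      have h3 := insert_inter_card_mem heβ heF
      obtain ⟨e', he'β, he'F, he'S⟩ := reply_box hFS' b1
        (show (insert e F ∩ β).card = (S ∩ β).card + 1 by omega)
      have he'D : e' ∉ D.box Z := Finset.disjoint_left.1 b5 he'β
      have heD : e ∉ D.box Z := Finset.disjoint_left.1 b5 heβ
      refine ⟨e', b3 e' he'β, he'F, he'S, Or.inr ⟨D, G, B, Z, E, ⟨hR.hD, hR.hZ,
        hR.hDS.trans (Finset.subset_insert _ _), disj_insert hR.hFS heS he'F, ?_, ?_, ?_, ?_, ?_,
        ?_, ?_, hR.hBd⟩⟩⟩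
      · intro x hx
        rcases Finset.mem_insert.1 hx with rfl | h4
        · exact Finset.mem_union_left _ (b2 heβ)
        · exact hR.hF h4
      · rw [insert_inter_notMem he'D]; exact hR.hE
      · rw [insert_inter_notMem he'D]; exact hR.h2
      · rw [insert_inter_notMem he'D]; exact hR.hlt
      · rw [insert_inter_notMem he'D, insert_inter_notMem heD]; exact hR.hFb
      · intro P hP hPS
        exact hR.hSP P hP (Finset.disjoint_of_subset_right (Finset.subset_insert _ _) hPS)
      · intro β' hβ'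
        obtain ⟨c1, c2, c3, c4, c5⟩ := hR.hB β' hβ'
        refine ⟨c1, c2, c3, ?_, c5⟩
        by_cases hbb : β' = β
        · subst hbb
          rw [insert_inter_card_mem he'β he'S, h3]
          omega
        · have heβ' : e ∉ β' := fun h5 =>
            Finset.disjoint_left.1 (hR.hBd β' hβ' β hβ hbb) h5 heβ
          rw [insert_inter_notMem heβ']
          exact c4.trans (Finset.card_le_card
            (Finset.inter_subset_inter_right (Finset.subset_insert _ _)))
    · push Not at hcase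
      have hFb := hR.hFb
      have h22 := hR.h2
      have hle := insert_inter_card_le e F (D.box Z)
      refine race_next (E := insert e E) hd hR.hD hR.hZ hR.hDS hFS' hF' (by omega) (by omega)
        hR.hlt (by omega) hR.hSP ?_ hR.hBd
      intro β hβ
      obtain ⟨b1, b2, b3, b4, b5⟩ := hR.hB β hβ
      refine ⟨b1, b2, b3, ?_, b5⟩
      by_cases heβ : e ∈ β
      · exact hcase β hβ heβ
      · rw [insert_inter_notMem heβ]; exact b4

end Run7.h137.RG
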