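import Pool.Agent.Run7.h137.RGCore

set_option autoImplicit false

/-!
Static analysis: which copies can have many edges in the family of the opponent.
-/

namespace Run7.h137.RG

/-- The marks of the first column whose edge lies in `G`. -/
def good₁ (c : Core) (G : Finset (Finset ℕ)) : Finset ℕ :=
  c.A₁.filter (fun a => c.X₁.erase a ∈ G)

/-- The marks of the second column whose edge lies in `G`. -/
def good₂ (c : Core) (G : Finset (Finset ℕ)) : Finset ℕ :=
  c.A₂.filter (fun a => c.X₂.erase a ∈ G)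

lemma mem_good₁ {c : Core} {G : Finset (Finset ℕ)} {a : ℕ} :
    a ∈ good₁ c G ↔ a ∈ c.A₁ ∧ c.X₁.erase a ∈ G := by simp [good₁]

lemma mem_good₂ {c : Core} {G : Finset (Finset ℕ)} {a : ℕ} :
    a ∈ good₂ c G ↔ a ∈ c.A₂ ∧ c.X₂.erase a ∈ G := by simp [good₂]

/-- `ρ` has a vertex lying in no other edge of `G`. -/
def Priv (G : Finset (Finset ℕ)) (ρ : Finset ℕ) : Prop :=
  ∃ z ∈ ρ, ∀ g ∈ G, g ≠ ρ → z ∉ g

lemma exists_ne_ne {s : Finset ℕ} (h : 3 ≤ s.card) (a b : ℕ) : ∃ x ∈ s, x ≠ a ∧ x ≠ b := by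
  by_contra hcon
  push Not at hcon
  have : s ⊆ {a, b} := by
    intro x hx
    rw [Finset.mem_insert, Finset.mem_singleton]
    by_cases hxa : x = a
    · exact Or.inl hxa
    · exact Or.inr (hcon x hx hxa)
  have h2 := Finset.card_le_card this
  have h3 : ({a, b} : Finset ℕ).card ≤ 2 := Finset.card_le_two
  omega

/-- An edge with a private vertex is not an edge of a column with three edges in `G`. -/
lemma not_priv_col {d : ℕ} {c : Core} (hc : c.Valid d) {G : Finset (Finset ℕ)}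
    (h3 : 3 ≤ (good₁ c G).card) {a : ℕ} (ha : a ∈ c.A₁) : ¬ Priv G (c.X₁.erase a) := by
  rintro ⟨z, hz, hpriv⟩
  obtain ⟨b, hb, hba, hbz⟩ := exists_ne_ne h3 a z
  rw [mem_good₁] at hb
  refine hpriv _ hb.2 ?_ ?_
  · intro hEq
    exact hba (erase_inj (hc.A₁_mem hb.1).1 hEq)
  · exact Finset.mem_erase.2 ⟨Ne.symm hbz, Finset.mem_of_mem_erase hz⟩

/-- The static family in the mode with a completed core `c` of the opponent. -/
def GS (c : Core) (q : Finset ℕ) (O : Finset (Finset ℕ)) (R : Finset (Finset ℕ)) :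
    Finset (Finset ℕ) :=
  insert q (c.core ∪ O.biUnion c.box ∪ R)

lemma mem_GS {c : Core} {q : Finset ℕ} {O R : Finset (Finset ℕ)} {e : Finset ℕ} :
    e ∈ GS c q O R ↔ e = q ∨ e ∈ c.core ∨ (∃ Z ∈ O, e ∈ c.box Z) ∨ e ∈ R := by
  simp [GS, or_assoc]

lemma two_common {X Y : Finset ℕ} (hXY : X.card = Y.card) {a a' b b' : ℕ} (ha : a ∈ X)
    (hne : a ≠ a') (h1 : X.erase a = Y.erase b) (h2 : X.erase a' = Y.erase b') : X = Y := by
  have hb : b ≠ b' := by
    rintro rfl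
    rw [← h2] at h1
    exact hne (erase_inj ha h1)
  symm
  apply Finset.eq_of_subset_of_card_le
  · intro x hx
    by_cases hxb : x = b
    · subst hxb
      have : x ∈ Y.erase b' := Finset.mem_erase.2 ⟨hb, hx⟩
      rw [← h2] at this
      exact Finset.mem_of_mem_erase this
    · have : x ∈ Y.erase b := Finset.mem_erase.2 ⟨hxb, hx⟩
      rw [← h1] at this
      exact Finset.mem_of_mem_erase this
  · exact hXY.le

/-- Column lemma. -/
lemma column {d : ℕ} {c c' : Core} (hc : c.Valid d) (hc' : c'.Valid d)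
    {q : Finset ℕ} {O R : Finset (Finset ℕ)}
    (hR : ∀ ρ ∈ R, Priv (GS c q O R) ρ)
    (hg : 5 ≤ (good₁ c' (GS c q O R)).card) :
    c'.X₁ = c.X₁ ∨ c'.X₁ = c.X₂ ∨ ∃ w, c.U.erase w ⊆ c'.X₁ := by
  classical
  by_cases hcell : ∃ a ∈ good₁ c' (GS c q O R), ∃ Z ∈ O, c'.X₁.erase a ∈ c.box Z
  · obtain ⟨a, _, Z, _, hbox⟩ := hcell
    obtain ⟨w, _, hw⟩ := mem_box.1 hbox
    refine Or.inr (Or.inr ⟨w, ?_⟩)
    intro x hx
    have : x ∈ c.cell Z w := mem_cell.2 (Or.inr (Finset.mem_erase.1 hx))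
    rw [hw] at this
    exact Finset.mem_of_mem_erase this
  push Not at hcell
  set good := good₁ c' (GS c q O R) with hgood
  set g1 := good.filter (fun a => ∃ b ∈ c.A₁, c.X₁.erase b = c'.X₁.erase a) with hg1
  set g2 := good.filter (fun a => ∃ b ∈ c.A₂, c.X₂.erase b = c'.X₁.erase a) with hg2
  set g0 := good.filter (fun a => c'.X₁.erase a = q) with hg0
  have hcover : good ⊆ g0 ∪ (g1 ∪ g2) := by
    intro a ha
    have ha' := mem_good₁.1 ha
    rcases mem_GS.1 ha'.2 with h1 | h1 | h1 | h1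
    · exact Finset.mem_union_left _ (Finset.mem_filter.2 ⟨ha, h1⟩)
    · apply Finset.mem_union_right
      rcases mem_core.1 h1 with h2 | h2
      · exact Finset.mem_union_left _ (Finset.mem_filter.2 ⟨ha, h2⟩)
      · exact Finset.mem_union_right _ (Finset.mem_filter.2 ⟨ha, h2⟩)
    · obtain ⟨Z, hZ, hZ2⟩ := h1
      exact absurd hZ2 (hcell a ha Z hZ)
    · exact absurd (hR _ h1) (not_priv_col hc' (by rw [← hgood]; omega) ha'.1)
  have hg0c : g0.card ≤ 1 := by
    rw [Finset.card_le_one]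
    intro a ha b hb
    have ha1 := Finset.mem_filter.1 ha
    have hb1 := Finset.mem_filter.1 hb
    exact erase_inj (hc'.A₁_mem (mem_good₁.1 ha1.1).1).1 (ha1.2.trans hb1.2.symm)
  have hcard := Finset.card_le_card hcover
  have hu1 := Finset.card_union_le g0 (g1 ∪ g2)
  have hu2 := Finset.card_union_le g1 g2
  have : 2 ≤ g1.card ∨ 2 ≤ g2.card := by omega
  rcases this with h2 | h2
  · obtain ⟨a, ha, b, hb, hab⟩ := Finset.one_lt_card.1 (show 1 < g1.card by omega)
    obtain ⟨ha1, u, _, hu⟩ := Finset.mem_filter.1 ha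
    obtain ⟨hb1, v, _, hv⟩ := Finset.mem_filter.1 hb
    refine Or.inl (two_common (by rw [hc'.card₁, hc.card₁])
      (hc'.A₁_mem (mem_good₁.1 ha1).1).1 hab hu.symm hv.symm)
  · obtain ⟨a, ha, b, hb, hab⟩ := Finset.one_lt_card.1 (show 1 < g2.card by omega)
    obtain ⟨ha1, u, _, hu⟩ := Finset.mem_filter.1 ha
    obtain ⟨hb1, v, _, hv⟩ := Finset.mem_filter.1 hb
    refine Or.inr (Or.inl (two_common (by rw [hc'.card₁, hc.card₂])
      (hc'.A₁_mem (mem_good₁.1 ha1).1).1 hab hu.symm hv.symm))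

/-- Pair lemma: a core with enough edges in the static family has the same columns. -/
lemma columns_eq {d : ℕ} (hd : 3 ≤ d) {c c' : Core} (hc : c.Valid d) (hc' : c'.Valid d)
    {q : Finset ℕ} {O R : Finset (Finset ℕ)}
    (hR : ∀ ρ ∈ R, Priv (GS c q O R) ρ)
    (hg1 : 5 ≤ (good₁ c' (GS c q O R)).card) (hg2 : 5 ≤ (good₂ c' (GS c q O R)).card) :
    (c'.X₁ = c.X₁ ∧ c'.X₂ = c.X₂) ∨ (c'.X₁ = c.X₂ ∧ c'.X₂ = c.X₁) := by
  have h1 := column hc hc' hR hg1
  have h2 : c'.X₂ = c.X₁ ∨ c'.X₂ = c.X₂ ∨ ∃ w, c.U.erase w ⊆ c'.X₂ :=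
    column hc (swap_valid hc') hR hg2
  have hne : c'.X₁ ≠ c'.X₂ := by
    intro hEq
    have := hc'.cardW
    rw [← hEq, Finset.inter_self, hc'.card₁] at this
    omega
  have hcardW := hc'.cardW
  -- a set of at least `4 d - 1` common vertices is impossible
  have key : ∀ s : Finset ℕ, s ⊆ c'.X₁ → s ⊆ c'.X₂ → 4 * d ≤ s.card + 1 → False := by
    intro s hs1 hs2 hs3
    have := Finset.card_le_card (Finset.subset_inter hs1 hs2)
    omega
  have hA₁U : ∀ w, c.A₁.erase w ⊆ c.U.erase w := fun w =>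
    Finset.erase_subset_erase _ (fun x hx => mem_U.2 (Or.inl hx))
  have hA₂U : ∀ w, c.A₂.erase w ⊆ c.U.erase w := fun w =>
    Finset.erase_subset_erase _ (fun x hx => mem_U.2 (Or.inr (Or.inl hx)))
  have hA₁X : ∀ w, c.A₁.erase w ⊆ c.X₁ := fun w x hx =>
    (hc.A₁_mem (Finset.mem_of_mem_erase hx)).1
  have hA₂X : ∀ w, c.A₂.erase w ⊆ c.X₂ := fun w x hx =>
    (hc.A₂_mem (Finset.mem_of_mem_erase hx)).1
  have hA₁c : ∀ w, 4 * d ≤ (c.A₁.erase w).card + 1 := fun w => by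
    have := Finset.pred_card_le_card_erase (s := c.A₁) (a := w)
    rw [hc.cardA₁] at this
    omega
  have hA₂c : ∀ w, 4 * d ≤ (c.A₂.erase w).card + 1 := fun w => by
    have := Finset.pred_card_le_card_erase (s := c.A₂) (a := w)
    rw [hc.cardA₂] at this
    omega
  rcases h1 with h1 | h1 | ⟨w, h1⟩ <;> rcases h2 with h2 | h2 | ⟨w', h2⟩
  · exact absurd (h1.trans h2.symm) hne
  · exact Or.inl ⟨h1, h2⟩
  · exact (key _ (by rw [h1]; exact hA₁X w') ((hA₁U w').trans h2) (hA₁c w')).elim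
  · exact Or.inr ⟨h1, h2⟩
  · exact absurd (h1.trans h2.symm) hne
  · exact (key _ (by rw [h1]; exact hA₂X w') ((hA₂U w').trans h2) (hA₂c w')).elim
  · exact (key _ ((hA₁U w).trans h1) (by rw [h2]; exact hA₁X w) (hA₁c w)).elim
  · exact (key _ ((hA₂U w).trans h1) (by rw [h2]; exact hA₂X w) (hA₂c w)).elim
  · refine (key ((c.U.erase w).erase w') ((Finset.erase_subset _ _).trans h1) ?_ ?_).elim
    · intro x hx
      refine h2 ?_
      rw [Finset.mem_erase, Finset.mem_erase] at hx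
      exact Finset.mem_erase.2 ⟨hx.1, hx.2.2⟩
    · have e1 := Finset.pred_card_le_card_erase (s := c.U) (a := w)
      have e2 := Finset.pred_card_le_card_erase (s := c.U.erase w) (a := w')
      have e3 := hc.cardU hd
      omega

/-! ### Missing edges -/

lemma miss_le {d : ℕ} (hd : 3 ≤ d) {P : Cp} (hP : P.Valid d) {G : Finset (Finset ℕ)}
    (h : 8 * d + 1 ≤ (P.edges ∩ G).card) : (P.edges \ G).card + 1 ≤ d := by
  have h1 := Finset.card_sdiff_add_card_inter P.edges G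
  rw [edges_card hd hP] at h1
  omega

lemma edge₁_mem {P : Cp} {a : ℕ} (ha : a ∈ P.c.A₁) : P.c.X₁.erase a ∈ P.edges :=
  Finset.mem_union_left _ (mem_core.2 (Or.inl ⟨a, ha, rfl⟩))

lemma edge₂_mem {P : Cp} {a : ℕ} (ha : a ∈ P.c.A₂) : P.c.X₂.erase a ∈ P.edges :=
  Finset.mem_union_left _ (mem_core.2 (Or.inr ⟨a, ha, rfl⟩))

lemma good₁_card {d : ℕ} {P : Cp} (hP : P.Valid d) {G : Finset (Finset ℕ)} {t : ℕ}
    (h : (P.edges \ G).card ≤ t) : 4 * d ≤ (good₁ P.c G).card + t := by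
  have h1 : ((P.c.A₁ \ good₁ P.c G).image (fun a => P.c.X₁.erase a)) ⊆ P.edges \ G := by
    intro e he
    obtain ⟨a, ha, rfl⟩ := Finset.mem_image.1 he
    rw [Finset.mem_sdiff, mem_good₁] at ha
    exact Finset.mem_sdiff.2 ⟨edge₁_mem ha.1, fun hG => ha.2 ⟨ha.1, hG⟩⟩
  have h2 := Finset.card_le_card h1
  rw [Finset.card_image_of_injOn] at h2
  · have h3 : P.c.A₁ \ good₁ P.c G ∪ good₁ P.c G = P.c.A₁ :=
      Finset.sdiff_union_of_subset (Finset.filter_subset _ _)
    have h4 := Finset.card_union_le (P.c.A₁ \ good₁ P.c G) (good₁ P.c G)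
    rw [h3, hP.core.cardA₁] at h4
    omega
  · intro a ha b _ hab
    have ha' : a ∈ P.c.A₁ \ good₁ P.c G := ha
    exact erase_inj (hP.core.A₁_mem (Finset.mem_sdiff.1 ha').1).1 hab

lemma good₂_card {d : ℕ} {P : Cp} (hP : P.Valid d) {G : Finset (Finset ℕ)} {t : ℕ}
    (h : (P.edges \ G).card ≤ t) : 4 * d ≤ (good₂ P.c G).card + t := by
  have := good₁_card (Cp.swap_valid hP) (G := G) (t := t) (by rw [Cp.swap_edges]; exact h)
  exact this

lemma good₁_of_core_sub {d : ℕ} {c : Core} (hc : c.Valid d) {G : Finset (Finset ℕ)}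
    (h : c.core ⊆ G) : (good₁ c G).card = 4 * d := by
  rw [← hc.cardA₁]
  congr 1
  apply Finset.filter_true_of_mem
  intro a ha
  exact h (mem_core.2 (Or.inl ⟨a, ha, rfl⟩))

lemma good₂_of_core_sub {d : ℕ} {c : Core} (hc : c.Valid d) {G : Finset (Finset ℕ)}
    (h : c.core ⊆ G) : (good₂ c G).card = 4 * d := by
  rw [← hc.cardA₂]
  congr 1
  apply Finset.filter_true_of_mem
  intro a ha
  exact h (mem_core.2 (Or.inr ⟨a, ha, rfl⟩))

/-- If all cells but at most one are missing, a missing core edge is one too many. -/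
lemma miss_core {d : ℕ} (hd : 3 ≤ d) {P : Cp} (hP : P.Valid d) {G : Finset (Finset ℕ)}
    (hm : (P.edges \ G).card + 1 ≤ d) {g : Finset ℕ}
    (hcells : ∀ e ∈ P.cells, e ≠ g → e ∉ G) : P.c.core ⊆ G := by
  intro e he
  by_contra hne
  have h1 : insert e (P.cells.erase g) ⊆ P.edges \ G := by
    intro x hx
    rcases Finset.mem_insert.1 hx with rfl | hx
    · exact Finset.mem_sdiff.2 ⟨Finset.mem_union_left _ he, hne⟩
    · rw [Finset.mem_erase] at hx
      exact Finset.mem_sdiff.2 ⟨Finset.mem_union_right _ hx.2, hcells x hx.2 hx.1⟩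
  have h2 := Finset.card_le_card h1
  rw [Finset.card_insert_of_notMem] at h2
  · have h3 := Finset.pred_card_le_card_erase (s := P.cells) (a := g)
    rw [cells_card hP] at h3
    omega
  · intro hx
    exact Finset.disjoint_left.1 (core_cells_disjoint hd hP) he (Finset.mem_of_mem_erase hx)

/-- A copy with few missing edges has some cell in `G`. -/
lemma exists_cell {d : ℕ} {P : Cp} (hP : P.Valid d) {G : Finset (Finset ℕ)}
    (hm : (P.edges \ G).card + 1 ≤ d) : ∃ e ∈ P.cells, e ∈ G := by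
  by_contra hcon
  push Not at hcon
  have h1 : P.cells ⊆ P.edges \ G := fun x hx =>
    Finset.mem_sdiff.2 ⟨Finset.mem_union_right _ hx, hcon x hx⟩
  have h2 := Finset.card_le_card h1
  rw [cells_card hP] at h2
  omega

lemma core_ext {c c' : Core} (h1 : c'.X₁ = c.X₁) (h2 : c'.X₂ = c.X₂) (h3 : c'.A₁ = c.A₁)
    (h4 : c'.A₂ = c.A₂) : c' = c := by
  cases c; cases c'; simp_all

/-- Cores with the same columns and included sets of edges are equal. -/
lemma core_eq_of_sub {d : ℕ} (hd : 3 ≤ d) {c c' : Core} (hc : c.Valid d) (hc' : c'.Valid d)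
    (h1 : c'.X₁ = c.X₁) (h2 : c'.X₂ = c.X₂) (hsub : c'.core ⊆ c.core) : c' = c := by
  apply core_ext h1 h2
  · apply Finset.eq_of_subset_of_card_le
    · intro a ha
      have h3 := hsub (mem_core.2 (Or.inl ⟨a, ha, rfl⟩))
      rw [h1] at h3
      exact (erase₁_mem_core hd hc (by rw [← h1]; exact (hc'.A₁_mem ha).1)).1 h3
    · rw [hc.cardA₁, hc'.cardA₁]
  · apply Finset.eq_of_subset_of_card_le
    · intro a ha
      have h3 := hsub (mem_core.2 (Or.inr ⟨a, ha, rfl⟩))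
      rw [h2] at h3
      exact (erase₂_mem_core hd hc (by rw [← h2]; exact (hc'.A₂_mem ha).1)).1 h3
    · rw [hc.cardA₂, hc'.cardA₂]

/-- A common cell of two cores with the same columns forces equality. -/
lemma core_eq_of_cell {d : ℕ} {c c' : Core} (hc : c.Valid d) (hc' : c'.Valid d)
    (h1 : c'.X₁ = c.X₁) (h2 : c'.X₂ = c.X₂) {Z Z' : Finset ℕ} (hZ : ZOk d c Z)
    (hZ' : ZOk d c' Z') {e : Finset ℕ} (he : e ∈ c.box Z) (he' : e ∈ c'.box Z') : c' = c := by
  obtain ⟨w, hw, rfl⟩ := mem_box.1 he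
  obtain ⟨w', hw', hEq⟩ := mem_box.1 he'
  apply core_ext h1 h2
  · rw [← cell_A₁ hc' hZ' hw', hEq, h1, h2, cell_A₁ hc hZ hw]
  · rw [← cell_A₂ hc' hZ' hw', hEq, h1, h2, cell_A₂ hc hZ hw]

/-- The aligned case of the static lemma. -/
lemma static_aligned {d : ℕ} (hd : 3 ≤ d) {c : Core} (hc : c.Valid d)
    {q : Finset ℕ} {O R : Finset (Finset ℕ)}
    (hO : ∀ Z ∈ O, ZOk d c Z)
    (hR : ∀ ρ ∈ R, ∃ z ∈ ρ, z ∉ c.X₁ ∧ z ∉ c.X₂ ∧ ∀ g ∈ GS c q O R, g ≠ ρ → z ∉ g)
    (hq : ∀ Z, ZOk d c Z → q ∈ c.box Z → Z ∈ O)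
    (hRc : ∀ ρ ∈ R, ∀ c' : Core, c'.Valid d → c'.X₁ = c.X₁ → c'.X₂ = c.X₂ →
      c'.core ⊆ insert q c.core → ∀ Z, ZOk d c' Z → ρ ∉ c'.box Z)
    {P : Cp} (hP : P.Valid d) (h1 : P.c.X₁ = c.X₁) (h2 : P.c.X₂ = c.X₂)
    (hm : (P.edges \ GS c q O R).card + 1 ≤ d) : P.Z ∈ O ∧ P.c = c := by
  by_cases hPc : P.c = c
  · refine ⟨?_, hPc⟩
    obtain ⟨e, he, heG⟩ := exists_cell hP hm
    have heb : e ∈ c.box P.Z := by rw [← hPc]; exact cells_sub_box hP he
    have hZc : ZOk d c P.Z := by rw [← hPc]; exact hP.z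
    rcases mem_GS.1 heG with h3 | h3 | ⟨Z, hZ, h3⟩ | h3
    · subst h3; exact hq _ hZc heb
    · rw [← hPc] at h3
      exact absurd he (Finset.disjoint_left.1 (core_cells_disjoint hd hP) h3)
    · rw [box_disjoint hc hZc (hO Z hZ) heb h3]; exact hZ
    · exact absurd heb (hRc e h3 c hc rfl rfl (Finset.subset_insert _ _) _ hZc)
  · exfalso
    -- core edges of `P` in `G` lie in `c.core ∪ {q}`
    have hcoreG : ∀ e ∈ P.c.core, e ∈ GS c q O R → e = q ∨ e ∈ c.core := by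
      intro e he heG
      have hsub : e ⊆ c.X₁ ∨ e ⊆ c.X₂ := by
        rcases mem_core.1 he with ⟨a, _, rfl⟩ | ⟨a, _, rfl⟩
        · left; rw [h1]; exact Finset.erase_subset _ _
        · right; rw [h2]; exact Finset.erase_subset _ _
      rcases mem_GS.1 heG with h3 | h3 | ⟨Z, hZ, h3⟩ | h3
      · exact Or.inl h3
      · exact Or.inr h3
      · exfalso
        obtain ⟨w, hw, rfl⟩ := mem_box.1 h3
        rcases hsub with h4 | h4
        · exact cell_not_sub₁ hd hc hw h4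
        · exact cell_not_sub₂ hd hc hw h4
      · exfalso
        obtain ⟨z, hz, hz1, hz2, _⟩ := hR e h3
        rcases hsub with h4 | h4
        · exact hz1 (h4 hz)
        · exact hz2 (h4 hz)
    -- cells of `P` in `G` are `q` or lie in `R`
    have hcellG : ∀ e ∈ P.cells, e ∈ GS c q O R → e = q ∨ e ∈ R := by
      intro e he heG
      rcases mem_GS.1 heG with h3 | h3 | ⟨Z, hZ, h3⟩ | h3
      · exact Or.inl h3
      · exfalso
        obtain ⟨w, hw, rfl⟩ := mem_cells.1 he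
        rcases mem_core.1 h3 with ⟨a, _, h4⟩ | ⟨a, _, h4⟩
        · apply cell_not_sub₁ hd hP.core (hP.sub hw) (Z := P.Z)
          rw [← h4, h1]; exact Finset.erase_subset _ _
        · apply cell_not_sub₂ hd hP.core (hP.sub hw) (Z := P.Z)
          rw [← h4, h2]; exact Finset.erase_subset _ _
      · exact absurd (core_eq_of_cell hc hP.core h1 h2 (hO Z hZ) hP.z h3
          (cells_sub_box hP he)) hPc
      · exact Or.inr h3
    by_cases hex : ∃ ρ ∈ P.cells, ρ ∈ R
    · obtain ⟨ρ, hρ, hρR⟩ := hex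
      obtain ⟨z, hz, hz1, hz2, hz3⟩ := hR ρ hρR
      obtain ⟨w, hw, hwρ⟩ := mem_cells.1 hρ
      have hzZ : z ∈ P.Z := by
        rw [← hwρ] at hz
        rcases mem_cell.1 hz with h3 | h3
        · exact h3
        · rcases hP.core.U_mem h3.2 with h4 | h4
          · rw [h1] at h4; exact absurd h4 hz1
          · rw [h2] at h4; exact absurd h4 hz2
      have hsub : P.c.core ⊆ GS c q O R := by
        apply miss_core hd hP hm (g := ρ)
        intro e he hne heG
        apply hz3 e heG hne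
        obtain ⟨w', _, rfl⟩ := mem_cells.1 he
        exact mem_cell.2 (Or.inl hzZ)
      refine hRc ρ hρR P.c hP.core h1 h2 ?_ P.Z hP.z (cells_sub_box hP hρ)
      intro e he
      rcases hcoreG e he (hsub he) with h3 | h3
      · exact Finset.mem_insert.2 (Or.inl h3)
      · exact Finset.mem_insert_of_mem h3
    · push Not at hex
      have hcells : ∀ e ∈ P.cells, e ≠ q → e ∉ GS c q O R := by
        intro e he hne heG
        rcases hcellG e he heG with h3 | h3
        · exact hne h3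
        · exact hex e he h3
      have hsub : P.c.core ⊆ GS c q O R := miss_core hd hP hm hcells
      obtain ⟨e, he, heG⟩ := exists_cell hP hm
      have heq : e = q := by
        by_contra hne
        exact hcells e he hne heG
      apply hPc
      apply core_eq_of_sub hd hc hP.core h1 h2
      intro x hx
      rcases hcoreG x hx (hsub hx) with h3 | h3
      · exfalso
        rw [h3, ← heq] at hx
        exact Finset.disjoint_left.1 (core_cells_disjoint hd hP) hx he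
      · exact h3

/-- The static lemma in the mode with a completed core. -/
theorem static_S {d : ℕ} (hd : 3 ≤ d) {c : Core} (hc : c.Valid d)
    {q : Finset ℕ} {O R : Finset (Finset ℕ)}
    (hO : ∀ Z ∈ O, ZOk d c Z)
    (hR : ∀ ρ ∈ R, ∃ z ∈ ρ, z ∉ c.X₁ ∧ z ∉ c.X₂ ∧ ∀ g ∈ GS c q O R, g ≠ ρ → z ∉ g)
    (hq : ∀ Z, ZOk d c Z → q ∈ c.box Z → Z ∈ O)
    (hRc : ∀ ρ ∈ R, ∀ c' : Core, c'.Valid d → c'.X₁ = c.X₁ → c'.X₂ = c.X₂ →
      c'.core ⊆ insert q c.core → ∀ Z, ZOk d c' Z → ρ ∉ c'.box Z)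
    {P : Cp} (hP : P.Valid d) (h : 8 * d + 1 ≤ (P.edges ∩ GS c q O R).card) :
    P.Z ∈ O ∧ P.box = c.box P.Z := by
  have hm := miss_le hd hP h
  have hR' : ∀ ρ ∈ R, Priv (GS c q O R) ρ := by
    intro ρ hρ
    obtain ⟨z, hz, _, _, hz3⟩ := hR ρ hρ
    exact ⟨z, hz, hz3⟩
  have hg1 := good₁_card hP (G := GS c q O R) (t := d - 1) (by omega)
  have hg2 := good₂_card hP (G := GS c q O R) (t := d - 1) (by omega)
  rcases columns_eq hd hc hP.core hR' (by omega) (by omega) with ⟨h1, h2⟩ | ⟨h1, h2⟩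
  · have := static_aligned hd hc hO hR hq hRc hP h1 h2 hm
    exact ⟨this.1, by rw [Cp.box, this.2]⟩
  · have := static_aligned hd hc hO hR hq hRc (Cp.swap_valid hP) h2 h1
      (by rw [Cp.swap_edges]; exact hm)
    refine ⟨this.1, ?_⟩
    rw [← Cp.swap_box, Cp.box, this.2]
    rfl

/-- The static lemma in the mode without completed core. -/
theorem static_N {d : ℕ} (hd : 3 ≤ d) {K R : Finset (Finset ℕ)}
    (hR : ∀ ρ ∈ R, Priv (K ∪ R) ρ)
    (hRc : ∀ ρ ∈ R, ∀ c' : Core, c'.Valid d → c'.core ⊆ K → ∀ Z, ZOk d c' Z → ρ ∉ c'.box Z)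
    {P : Cp} (hP : P.Valid d) (hK : (P.edges ∩ K).card ≤ 8 * d) :
    (P.edges ∩ (K ∪ R)).card ≤ 8 * d := by
  by_contra hcon
  have hcon' : 8 * d + 1 ≤ (P.edges ∩ (K ∪ R)).card := by omega
  have hm := miss_le hd hP hcon'
  have hg1 := good₁_card hP (G := K ∪ R) (t := d - 1) (by omega)
  have hg2 := good₂_card hP (G := K ∪ R) (t := d - 1) (by omega)
  have hcoreR : ∀ e ∈ P.c.core, e ∉ R := by
    intro e he heR
    rcases mem_core.1 he with ⟨a, ha, rfl⟩ | ⟨a, ha, rfl⟩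
    · exact not_priv_col hP.core (G := K ∪ R) (by omega) ha (hR _ heR)
    · exact not_priv_col (swap_valid hP.core) (G := K ∪ R)
        (show 3 ≤ (good₂ P.c (K ∪ R)).card by omega) ha (hR _ heR)
  obtain ⟨ρ, hρ, hρR⟩ : ∃ ρ ∈ P.edges, ρ ∈ R := by
    by_contra hno
    push Not at hno
    have : P.edges ∩ (K ∪ R) ⊆ P.edges ∩ K := by
      intro e he
      rw [Finset.mem_inter, Finset.mem_union] at he
      rcases he.2 with h1 | h1
      · exact Finset.mem_inter.2 ⟨he.1, h1⟩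
      · exact absurd h1 (hno e he.1)
    have := Finset.card_le_card this
    omega
  have hρc : ρ ∈ P.cells := by
    rcases Finset.mem_union.1 hρ with h1 | h1
    · exact absurd hρR (hcoreR ρ h1)
    · exact h1
  obtain ⟨w, hw, hwρ⟩ := mem_cells.1 hρc
  obtain ⟨z, hz, hz3⟩ := hR ρ hρR
  have hne_core : ∀ e ∈ P.c.core, e ≠ ρ := by
    rintro e he rfl
    exact Finset.disjoint_left.1 (core_cells_disjoint hd hP) he hρc
  have hzX₁ : z ∉ P.c.X₁ := by
    intro hzX
    obtain ⟨b, hb, hb1, _⟩ := exists_ne_ne (s := good₁ P.c (K ∪ R)) (by omega) z z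
    rw [mem_good₁] at hb
    exact hz3 _ hb.2 (hne_core _ (mem_core.2 (Or.inl ⟨b, hb.1, rfl⟩)))
      (Finset.mem_erase.2 ⟨Ne.symm hb1, hzX⟩)
  have hzX₂ : z ∉ P.c.X₂ := by
    intro hzX
    obtain ⟨b, hb, hb1, _⟩ := exists_ne_ne (s := good₂ P.c (K ∪ R)) (by omega) z z
    rw [mem_good₂] at hb
    exact hz3 _ hb.2 (hne_core _ (mem_core.2 (Or.inr ⟨b, hb.1, rfl⟩)))
      (Finset.mem_erase.2 ⟨Ne.symm hb1, hzX⟩)
  have hzZ : z ∈ P.Z := by
    rw [← hwρ] at hz
    rcases mem_cell.1 hz with h3 | h3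
    · exact h3
    · rcases hP.core.U_mem h3.2 with h4 | h4
      · exact absurd h4 hzX₁
      · exact absurd h4 hzX₂
  have hsub : P.c.core ⊆ K ∪ R := by
    apply miss_core hd hP hm (g := ρ)
    intro e he hne heG
    apply hz3 e heG hne
    obtain ⟨w', _, rfl⟩ := mem_cells.1 he
    exact mem_cell.2 (Or.inl hzZ)
  refine hRc ρ hρR P.c hP.core ?_ P.Z hP.z (cells_sub_box hP hρc)
  intro e he
  rcases Finset.mem_union.1 (hsub he) with h1 | h1
  · exact h1
  · exact absurd h1 (hcoreR e he)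

end Run7.h137.RG
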